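import Pool.Agent.SQF4.S14
import Pool.Agent.SQF4.BTab
import Pool.Agent.SQF4.Ker.P

/-!
CHECK of the parameters against the table B(q, t).
-/

set_option autoImplicit false

namespace Pool.Agent.SQF4.Ker

open Pool.Agent.SQF4 Pool.Agent.SQF4.Eng

theorem oA : ParsOK SP Bt 4 4 pA 4 := parsB_sound (fun _ _ h => h) pA 4 4 4 (by decide +kernel)

theorem oB : ParsOK SP Bt 14 4 pB 6 := parsB_sound (fun _ _ h => h) pB 14 4 6 (by decide +kernel)

theorem o0 : ParsOK SP Bt 33 6 q0 7 := parsB_sound (fun _ _ h => h) q0 33 6 7 (by decide +kernel)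

theorem o1 : ParsOK SP Bt 38 7 q1 8 := parsB_sound (fun _ _ h => h) q1 38 7 8 (by decide +kernel)

theorem o2 : ParsOK SP Bt 43 8 q2 8 := parsB_sound (fun _ _ h => h) q2 43 8 8 (by decide +kernel)

theorem o3 : ParsOK SP Bt 48 8 q3 8 := parsB_sound (fun _ _ h => h) q3 48 8 8 (by decide +kernel)

theorem o4 : ParsOK SP Bt 54 8 q4 8 := parsB_sound (fun _ _ h => h) q4 54 8 8 (by decide +kernel)

theorem o5 : ParsOK SP Bt 60 8 q5 8 := parsB_sound (fun _ _ h => h) q5 60 8 8 (by decide +kernel)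

theorem o6 : ParsOK SP Bt 67 8 q6 8 := parsB_sound (fun _ _ h => h) q6 67 8 8 (by decide +kernel)

theorem o7 : ParsOK SP Bt 76 8 q7 8 := parsB_sound (fun _ _ h => h) q7 76 8 8 (by decide +kernel)

end Pool.Agent.SQF4.Ker
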