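import Pool.Agent.SQF4.Ker.D0
import Pool.Agent.SQF4.Ker.D1
import Pool.Agent.SQF4.Ker.D2
import Pool.Agent.SQF4.Ker.D3
import Pool.Agent.SQF4.Ker.D4
import Pool.Agent.SQF4.Ker.D5

/-!
CERTIFICATE of the first levels: the run from the four seeds to the states s.
-/

set_option autoImplicit false
set_option maxRecDepth 1000000

namespace Pool.Agent.SQF4.Ker

open Pool.Agent.SQF4.Eng

def ss : List Sta := [s0, s1, s2, s3, s4, s5, s6, s7, s8, s9, s10, s11, s12, s13, s14, s15, s16, s17, s18, s19, s20, s21, s22, s23, s24, s25, s26, s27, s28, s29, s30, s31, s32, s33, s34, s35, s36, s37, s38, s39, s40, s41, s42, s43, s44, s45, s46, s47, s48, s49, s50, s51, s52, s53, s54, s55, s56, s57, s58, s59, s60, s61, s62, s63, s64, s65, s66, s67, s68, s69, s70, s71, s72, s73, s74, s75, s76, s77, s78, s79, s80, s81, s82, s83, s84, s85, s86, s87, s88, s89, s90, s91, s92, s93, s94, s95, s96, s97, s98, s99, s100, s101, s102, s103, s104, s105, s106, s107, s108, s109, s110, s111, s112, s113, s114, s115, s116, s117, s118, s119, s120, s121, s122, s123,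 s124, s125, s126, s127, s128, s129, s130, s131, s132, s133, s134, s135, s136, s137, s138, s139, s140, s141, s142, s143, s144, s145, s146, s147, s148, s149, s150, s151, s152, s153, s154, s155, s156, s157, s158, s159, s160, s161, s162, s163, s164, s165, s166, s167, s168, s169, s170, s171, s172, s173]

def top : PLift (runS (fCat 14 ss) pA [11, 29, 77, 202, 532, 1395, 3664, 9605, 25192, 66047] 4 ⟨4, 40448, 49392⟩ = true) :=
  ⟨by decide +kernel⟩

end Pool.Agent.SQF4.Ker
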