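import Pool.Agent.SQF4.Ker.D0

/-!
CERTIFICATES, part 0: the runs from s to t.
-/

set_option autoImplicit false
set_option maxRecDepth 1000000

namespace Pool.Agent.SQF4.Ker

open Pool.Agent.SQF4.Eng

def u0 : PLift (runS (fIs t0) pB [199, 517, 1244, 2367, 3460, 4707, 6223, 7162, 8085, 7141, 6821, 6510, 6154, 5780, 5622, 5557, 4452, 3973, 3437] 14 s0 = true) :=
  ⟨by decide +kernel⟩

theorem c0 : cleanB 14 s0 = true := by decide +kernel

def u1 : PLift (runS (fIs t1) pB [312, 933, 2113, 4103, 6166, 8285, 10148, 9930, 9498, 7881, 7168, 5907, 5119, 4547, 3946, 3318, 2365, 1693, 1320] 14 s1 = true) :=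
  ⟨by decide +kernel⟩

theorem c1 : cleanB 14 s1 = true := by decide +kernel

def u2 : PLift (runS (fIs t2) pB [826, 2452, 4886, 8107, 11221, 12618, 12726, 10673, 8575, 6388, 5495, 3706, 2561, 1653, 1092, 591, 375, 271, 204] 14 s2 = true) :=
  ⟨by decide +kernel⟩

theorem c2 : cleanB 14 s2 = true := by decide +kernel

def u3 : PLift (runS (fIs t3) pB [532, 1515, 3422, 6341, 9021, 11215, 12301, 10734, 8857, 6973, 5695, 4042, 3169, 2725, 2381, 1925, 1492, 1169, 1062] 14 s3 = true) :=
  ⟨by decide +kernel⟩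

theorem c3 : cleanB 14 s3 = true := by decide +kernel

def u4 : PLift (runS (fIs t4) pB [692, 2043, 4342, 7459, 10694, 12504, 13205, 11281, 9350, 6786, 5000, 3672, 2432, 1763, 1467, 816, 489, 351, 283] 14 s4 = true) :=
  ⟨by decide +kernel⟩

theorem c4 : cleanB 14 s4 = true := by decide +kernel

end Pool.Agent.SQF4.Ker
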