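import Pool.Agent.SQF4.Ker.D0

/-!
CERTIFICATES, part 1: the runs from s to t.
-/

set_option autoImplicit false
set_option maxRecDepth 1000000

namespace Pool.Agent.SQF4.Ker

open Pool.Agent.SQF4.Eng

def u5 : PLift (runS (fIs t5) pB [747, 2035, 4466, 7150, 9380, 11832, 12955, 11292, 9290, 6820, 5533, 3937, 2713, 1946, 1509, 976, 654, 516, 398] 14 s5 = true) :=
  ⟨by decide +kernel⟩

theorem c5 : cleanB 14 s5 = true := by decide +kernel

def u6 : PLift (runS (fIs t6) pB [1156, 2682, 5924, 8938, 10656, 12612, 13300, 11058, 8740, 6861, 4427, 3070, 1964, 1344, 702, 425, 280, 180, 139] 14 s6 = true) :=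
  ⟨by decide +kernel⟩

theorem c6 : cleanB 14 s6 = true := by decide +kernel

def u7 : PLift (runS (fIs t7) pB [702, 1727, 3635, 5952, 8081, 10118, 11594, 10805, 9049, 8321, 5560, 4273, 3648, 3005, 2272, 1940, 1476, 1383, 1028] 14 s7 = true) :=
  ⟨by decide +kernel⟩

theorem c7 : cleanB 14 s7 = true := by decide +kernel

def u8 : PLift (runS (fIs t8) pB [933, 2448, 5521, 8306, 9953, 11301, 11895, 10465, 8985, 7975, 5124, 3328, 2416, 1730, 1041, 979, 546, 419, 234] 14 s8 = true) :=
  ⟨by decide +kernel⟩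

theorem c8 : cleanB 14 s8 = true := by decide +kernel

def u9 : PLift (runS (fIs t9) pB [1473, 3817, 7395, 8992, 9644, 10614, 11570, 9958, 8000, 7108, 4330, 3018, 2235, 1609, 1027, 1438, 840, 740, 434] 14 s9 = true) :=
  ⟨by decide +kernel⟩

theorem c9 : cleanB 14 s9 = true := by decide +kernel

end Pool.Agent.SQF4.Ker
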