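import Pool.Agent.SQF4.Ker.D1

/-!
CERTIFICATES, part 10: the runs from s to t.
-/

set_option autoImplicit false
set_option maxRecDepth 1000000

namespace Pool.Agent.SQF4.Ker

open Pool.Agent.SQF4.Eng

def u49 : PLift (runS (fIs t49) pB [309, 844, 1982, 3957, 5878, 7582, 9203, 8726, 7778, 7633, 5390, 4521, 4045, 3880, 3310, 4026, 3581, 3562, 3225] 14 s49 = true) :=
  ⟨by decide +kernel⟩

theorem c49 : cleanB 14 s49 = true := by decide +kernel

def u50 : PLift (runS (fIs t50) pB [717, 2102, 4129, 6988, 9679, 11498, 12047, 10041, 7802, 6230, 5041, 3766, 2958, 2373, 1591, 1506, 1320, 1145, 1181] 14 s50 = true) :=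
  ⟨by decide +kernel⟩

theorem c50 : cleanB 14 s50 = true := by decide +kernel

def u51 : PLift (runS (fIs t51) pB [464, 1193, 2878, 5331, 7666, 10046, 12196, 11596, 9917, 8345, 5864, 4270, 3553, 2896, 2792, 1580, 986, 786, 544] 14 s51 = true) :=
  ⟨by decide +kernel⟩

theorem c51 : cleanB 14 s51 = true := by decide +kernel

def u52 : PLift (runS (fIs t52) pB [812, 2144, 4821, 7540, 9474, 10945, 11930, 10477, 8209, 6549, 5221, 3715, 2987, 2278, 1989, 1885, 1348, 1253, 1021] 14 s52 = true) :=
  ⟨by decide +kernel⟩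

theorem c52 : cleanB 14 s52 = true := by decide +kernel

def u53 : PLift (runS (fIs t53) pB [658, 1690, 4267, 7254, 9144, 11644, 13503, 12035, 9441, 7492, 5606, 3647, 2540, 1770, 1365, 1101, 615, 469, 329] 14 s53 = true) :=
  ⟨by decide +kernel⟩

theorem c53 : cleanB 14 s53 = true := by decide +kernel

end Pool.Agent.SQF4.Ker
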