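import Pool.Agent.SQF4.Ker.D1

/-!
CERTIFICATES, part 11: the runs from s to t.
-/

set_option autoImplicit false
set_option maxRecDepth 1000000

namespace Pool.Agent.SQF4.Ker

open Pool.Agent.SQF4.Eng

def u54 : PLift (runS (fIs t54) pB [1029, 2402, 5397, 8643, 10514, 12860, 13896, 11352, 8435, 6078, 4370, 3109, 2186, 1539, 1146, 744, 446, 285, 202] 14 s54 = true) :=
  ⟨by decide +kernel⟩

theorem c54 : cleanB 14 s54 = true := by decide +kernel

def u55 : PLift (runS (fIs t55) pB [1152, 2861, 5522, 7602, 8858, 11027, 12369, 11219, 9297, 8056, 5108, 3680, 2774, 1820, 1497, 824, 426, 300, 189] 14 s55 = true) :=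
  ⟨by decide +kernel⟩

theorem c55 : cleanB 14 s55 = true := by decide +kernel

def u56 : PLift (runS (fIs t56) pB [1308, 3390, 7202, 10038, 11008, 12141, 13150, 10803, 8217, 6192, 3776, 2576, 1804, 1059, 697, 443, 201, 115, 86] 14 s56 = true) :=
  ⟨by decide +kernel⟩

theorem c56 : cleanB 14 s56 = true := by decide +kernel

def u57 : PLift (runS (fIs t57) pB [659, 1718, 4015, 6490, 8224, 10229, 11917, 11345, 9628, 7982, 5919, 4282, 3314, 2409, 2144, 1641, 1106, 896, 778] 14 s57 = true) :=
  ⟨by decide +kernel⟩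

theorem c57 : cleanB 14 s57 = true := by decide +kernel

def u58 : PLift (runS (fIs t58) pB [722, 1919, 4449, 7912, 9867, 11508, 11966, 10344, 7784, 6332, 4996, 3429, 2579, 1747, 1370, 1376, 927, 789, 534] 14 s58 = true) :=
  ⟨by decide +kernel⟩

theorem c58 : cleanB 14 s58 = true := by decide +kernel

end Pool.Agent.SQF4.Ker
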