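import Pool.Agent.SQF4.Ker.D1

/-!
CERTIFICATES, part 12: the runs from s to t.
-/

set_option autoImplicit false
set_option maxRecDepth 1000000

namespace Pool.Agent.SQF4.Ker

open Pool.Agent.SQF4.Eng

def u59 : PLift (runS (fIs t59) pB [885, 2278, 5488, 9211, 10482, 11923, 12369, 10857, 8750, 7703, 4477, 2921, 2220, 1490, 1029, 917, 647, 572, 429] 14 s59 = true) :=
  ⟨by decide +kernel⟩

theorem c59 : cleanB 14 s59 = true := by decide +kernel

def u60 : PLift (runS (fIs t60) pB [1341, 3108, 6485, 10363, 11139, 12430, 12208, 10139, 7745, 6306, 3977, 2706, 1983, 1415, 986, 727, 465, 330, 198] 14 s60 = true) :=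
  ⟨by decide +kernel⟩

theorem c60 : cleanB 14 s60 = true := by decide +kernel

def u61 : PLift (runS (fIs t61) pB [999, 2571, 5512, 7985, 9255, 10896, 11781, 10820, 8975, 7838, 4943, 3411, 2564, 1804, 1509, 1403, 1003, 715, 528] 14 s61 = true) :=
  ⟨by decide +kernel⟩

theorem c61 : cleanB 14 s61 = true := by decide +kernel

def u62 : PLift (runS (fIs t62) pB [1494, 3865, 8148, 11716, 12728, 13087, 12969, 10340, 6906, 4923, 3297, 1966, 1267, 709, 463, 301, 142, 64, 37] 14 s62 = true) :=
  ⟨by decide +kernel⟩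

theorem c62 : cleanB 14 s62 = true := by decide +kernel

def u63 : PLift (runS (fIs t63) pB [694, 1636, 4105, 7394, 9380, 11733, 13548, 11962, 9832, 7223, 5440, 3906, 2740, 1864, 1289, 679, 429, 359, 261] 14 s63 = true) :=
  ⟨by decide +kernel⟩

theorem c63 : cleanB 14 s63 = true := by decide +kernel

end Pool.Agent.SQF4.Ker
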