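import Pool.Agent.SQF4.Ker.D1

/-!
CERTIFICATES, part 13: the runs from s to t.
-/

set_option autoImplicit false
set_option maxRecDepth 1000000

namespace Pool.Agent.SQF4.Ker

open Pool.Agent.SQF4.Eng

def u64 : PLift (runS (fIs t64) pB [1296, 3030, 6258, 9231, 10114, 11664, 12928, 10971, 8148, 6370, 4601, 3249, 2132, 1543, 819, 729, 480, 329, 253] 14 s64 = true) :=
  ⟨by decide +kernel⟩

theorem c64 : cleanB 14 s64 = true := by decide +kernel

def u65 : PLift (runS (fIs t65) pB [1005, 2599, 6087, 9412, 10511, 11513, 11907, 10072, 7822, 6598, 5246, 3511, 2365, 1519, 1203, 1249, 728, 610, 461] 14 s65 = true) :=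
  ⟨by decide +kernel⟩

theorem c65 : cleanB 14 s65 = true := by decide +kernel

def u66 : PLift (runS (fIs t66) pB [1316, 3434, 7606, 10230, 10944, 11861, 12721, 10949, 8200, 6211, 4364, 2660, 1532, 892, 586, 544, 227, 166, 73] 14 s66 = true) :=
  ⟨by decide +kernel⟩

theorem c66 : cleanB 14 s66 = true := by decide +kernel

def u67 : PLift (runS (fIs t67) pB [1440, 3695, 7341, 8808, 9579, 10872, 11905, 10393, 8431, 6665, 3958, 2536, 1700, 1147, 720, 506, 339, 265, 190] 14 s67 = true) :=
  ⟨by decide +kernel⟩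

theorem c67 : cleanB 14 s67 = true := by decide +kernel

end Pool.Agent.SQF4.Ker
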