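import Pool.Agent.SQF4.Ker.D2

/-!
CERTIFICATES, part 15: the runs from s to t.
-/

set_option autoImplicit false
set_option maxRecDepth 1000000

namespace Pool.Agent.SQF4.Ker

open Pool.Agent.SQF4.Eng

def u73 : PLift (runS (fIs t73) pB [2140, 5564, 10949, 12899, 11632, 10982, 11414, 9083, 6607, 4750, 3497, 2059, 1161, 661, 290, 266, 121, 49, 39] 14 s73 = true) :=
  ⟨by decide +kernel⟩

theorem c73 : cleanB 14 s73 = true := by decide +kernel

def u74 : PLift (runS (fIs t74) pB [1328, 3137, 6631, 8783, 8679, 9613, 10702, 9705, 8411, 7228, 5430, 4235, 3236, 2602, 1725, 1164, 814, 610, 431] 14 s74 = true) :=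
  ⟨by decide +kernel⟩

theorem c74 : cleanB 14 s74 = true := by decide +kernel

def u75 : PLift (runS (fIs t75) pB [1134, 2712, 6495, 10027, 10936, 11772, 12825, 10922, 8555, 6641, 4496, 2940, 1853, 1226, 693, 582, 338, 270, 132] 14 s75 = true) :=
  ⟨by decide +kernel⟩

theorem c75 : cleanB 14 s75 = true := by decide +kernel

def u76 : PLift (runS (fIs t76) pB [878, 2237, 5241, 8602, 9773, 10944, 11785, 10196, 7899, 6759, 6058, 4247, 2949, 2055, 1498, 1470, 822, 681, 529] 14 s76 = true) :=
  ⟨by decide +kernel⟩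

theorem c76 : cleanB 14 s76 = true := by decide +kernel

def u77 : PLift (runS (fIs t77) pB [902, 2218, 5278, 9267, 10198, 11415, 12154, 11291, 9495, 7607, 5124, 3349, 2118, 1512, 966, 655, 355, 221, 136] 14 s77 = true) :=
  ⟨by decide +kernel⟩

theorem c77 : cleanB 14 s77 = true := by decide +kernel

end Pool.Agent.SQF4.Ker
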