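import Pool.Agent.SQF4.Ker.D2

/-!
CERTIFICATES, part 16: the runs from s to t.
-/

set_option autoImplicit false
set_option maxRecDepth 1000000

namespace Pool.Agent.SQF4.Ker

open Pool.Agent.SQF4.Eng

def u78 : PLift (runS (fIs t78) pB [1098, 2532, 5107, 7498, 7654, 8626, 9289, 9001, 8015, 7093, 5055, 4239, 4053, 4330, 3906, 2273, 1788, 1595, 1352] 14 s78 = true) :=
  ⟨by decide +kernel⟩

theorem c78 : cleanB 14 s78 = true := by decide +kernel

def u79 : PLift (runS (fIs t79) pB [938, 2407, 5271, 7361, 7686, 8443, 9705, 9058, 7877, 6280, 5575, 5115, 4517, 4376, 4857, 1453, 983, 815, 611] 14 s79 = true) :=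
  ⟨by decide +kernel⟩

theorem c79 : cleanB 14 s79 = true := by decide +kernel

def u80 : PLift (runS (fIs t80) pB [1678, 4348, 8629, 11137, 10692, 11139, 11665, 9306, 7235, 5598, 4334, 2867, 1821, 1234, 791, 833, 561, 336, 216] 14 s80 = true) :=
  ⟨by decide +kernel⟩

theorem c80 : cleanB 14 s80 = true := by decide +kernel

def u81 : PLift (runS (fIs t81) pB [1104, 2821, 6536, 10531, 11442, 12244, 12717, 10654, 8121, 6254, 5013, 3139, 1793, 907, 486, 479, 193, 83, 36] 14 s81 = true) :=
  ⟨by decide +kernel⟩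

theorem c81 : cleanB 14 s81 = true := by decide +kernel

def u82 : PLift (runS (fIs t82) pB [545, 1465, 3435, 5701, 6625, 7611, 8832, 8345, 7410, 7317, 6234, 5042, 4705, 5179, 3299, 3678, 3056, 3031, 2774] 14 s82 = true) :=
  ⟨by decide +kernel⟩

theorem c82 : cleanB 14 s82 = true := by decide +kernel

end Pool.Agent.SQF4.Ker
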