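import Pool.Agent.SQF4.Ker.D2

/-!
CERTIFICATES, part 17: the runs from s to t.
-/

set_option autoImplicit false
set_option maxRecDepth 1000000

namespace Pool.Agent.SQF4.Ker

open Pool.Agent.SQF4.Eng

def u83 : PLift (runS (fIs t83) pB [1040, 3001, 5537, 9121, 11484, 12208, 12619, 10486, 8039, 6276, 5051, 3372, 2063, 1447, 821, 806, 516, 340, 236] 14 s83 = true) :=
  ⟨by decide +kernel⟩

theorem c83 : cleanB 14 s83 = true := by decide +kernel

def u84 : PLift (runS (fIs t84) pB [888, 2608, 4584, 7160, 8386, 8729, 9065, 6913, 4924, 3566, 2548, 1699, 967, 528, 273, 263, 185, 148, 125] 14 s84 = true) :=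
  ⟨by decide +kernel⟩

theorem c84 : cleanB 14 s84 = true := by decide +kernel

def u85 : PLift (runS (fIs t85) pB [2, 5, 14, 36, 94, 247, 647, 1601, 3413, 6380, 7590, 10502, 13372, 16844, 11327, 10503, 8609, 8030, 7163] 14 s85 = true) :=
  ⟨by decide +kernel⟩

theorem c85 : cleanB 14 s85 = true := by decide +kernel

end Pool.Agent.SQF4.Ker
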