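import Pool.Agent.SQF4.Ker.D3

/-!
CERTIFICATES, part 18: the runs from s to t.
-/

set_option autoImplicit false
set_option maxRecDepth 1000000

namespace Pool.Agent.SQF4.Ker

open Pool.Agent.SQF4.Eng

def u86 : PLift (runS (fIs t86) pB [292, 830, 1816, 3500, 5029, 6579, 8170, 8083, 7658, 8228, 6550, 5526, 4957, 4447, 3569, 3744, 3163, 2746, 2584] 14 s86 = true) :=
  ⟨by decide +kernel⟩

theorem c86 : cleanB 14 s86 = true := by decide +kernel

def u87 : PLift (runS (fIs t87) pB [412, 1188, 2367, 4020, 5009, 5454, 5864, 5189, 4484, 4557, 4790, 4802, 4985, 5745, 6550, 7474, 7036, 7117, 6530] 14 s87 = true) :=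
  ⟨by decide +kernel⟩

theorem c87 : cleanB 14 s87 = true := by decide +kernel

def u88 : PLift (runS (fIs t88) pB [1577, 4149, 8423, 11614, 12029, 12315, 12641, 10258, 7506, 5253, 3488, 2075, 1231, 793, 429, 268, 139, 103, 52] 14 s88 = true) :=
  ⟨by decide +kernel⟩

theorem c88 : cleanB 14 s88 = true := by decide +kernel

def u89 : PLift (runS (fIs t89) pB [1624, 3985, 7907, 10570, 10668, 11618, 12382, 10271, 7736, 5960, 4060, 2683, 1712, 1111, 596, 525, 366, 284, 257] 14 s89 = true) :=
  ⟨by decide +kernel⟩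

theorem c89 : cleanB 14 s89 = true := by decide +kernel

def u90 : PLift (runS (fIs t90) pB [1340, 3204, 7555, 11575, 11799, 12774, 12776, 10261, 7306, 5365, 4316, 2659, 1420, 961, 402, 354, 188, 82, 51] 14 s90 = true) :=
  ⟨by decide +kernel⟩

theorem c90 : cleanB 14 s90 = true := by decide +kernel

end Pool.Agent.SQF4.Ker
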