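import Pool.Agent.SQF4.Ker.D3

/-!
CERTIFICATES, part 19: the runs from s to t.
-/

set_option autoImplicit false
set_option maxRecDepth 1000000

namespace Pool.Agent.SQF4.Ker

open Pool.Agent.SQF4.Eng

def u91 : PLift (runS (fIs t91) pB [1108, 2869, 6589, 10653, 11539, 12048, 11937, 10167, 7904, 6288, 4825, 3183, 1893, 1077, 704, 749, 349, 245, 81] 14 s91 = true) :=
  ⟨by decide +kernel⟩

theorem c91 : cleanB 14 s91 = true := by decide +kernel

def u92 : PLift (runS (fIs t92) pB [470, 1207, 3019, 5558, 7741, 9742, 11065, 11046, 9799, 7448, 6565, 5097, 3965, 2957, 2805, 2350, 1572, 1418, 985] 14 s92 = true) :=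
  ⟨by decide +kernel⟩

theorem c92 : cleanB 14 s92 = true := by decide +kernel

def u93 : PLift (runS (fIs t93) pB [560, 1474, 3400, 5963, 8160, 9891, 11025, 10634, 9473, 6864, 6176, 4763, 3749, 2832, 2442, 1337, 896, 751, 487] 14 s93 = true) :=
  ⟨by decide +kernel⟩

theorem c93 : cleanB 14 s93 = true := by decide +kernel

def u94 : PLift (runS (fIs t94) pB [364, 965, 2422, 4333, 6539, 8757, 10564, 10710, 9934, 7987, 7019, 5581, 4433, 3529, 3449, 2712, 1735, 1293, 803] 14 s94 = true) :=
  ⟨by decide +kernel⟩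

theorem c94 : cleanB 14 s94 = true := by decide +kernel

def u95 : PLift (runS (fIs t95) pB [732, 1894, 4702, 7718, 9448, 11333, 12139, 10653, 8908, 6825, 5753, 3978, 2807, 2282, 2065, 1319, 790, 692, 439] 14 s95 = true) :=
  ⟨by decide +kernel⟩

theorem c95 : cleanB 14 s95 = true := by decide +kernel

end Pool.Agent.SQF4.Ker
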