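import Pool.Agent.SQF4.Ker.D0

/-!
CERTIFICATES, part 2: the runs from s to t.
-/

set_option autoImplicit false
set_option maxRecDepth 1000000

namespace Pool.Agent.SQF4.Ker

open Pool.Agent.SQF4.Eng

def u10 : PLift (runS (fIs t10) pB [1136, 3003, 6771, 8749, 9909, 11060, 11870, 10464, 8537, 7466, 4823, 3555, 2589, 1809, 1290, 811, 405, 225, 137] 14 s10 = true) :=
  ⟨by decide +kernel⟩

theorem c10 : cleanB 14 s10 = true := by decide +kernel

def u11 : PLift (runS (fIs t11) pB [1155, 2721, 5552, 8024, 9633, 11467, 12424, 11187, 9440, 7798, 4875, 3475, 2580, 1799, 961, 568, 311, 235, 196] 14 s11 = true) :=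
  ⟨by decide +kernel⟩

theorem c11 : cleanB 14 s11 = true := by decide +kernel

def u12 : PLift (runS (fIs t12) pB [929, 2232, 5366, 8255, 9685, 11145, 12330, 11081, 9156, 7581, 5592, 3832, 2619, 1742, 952, 827, 459, 384, 316] 14 s12 = true) :=
  ⟨by decide +kernel⟩

theorem c12 : cleanB 14 s12 = true := by decide +kernel

def u13 : PLift (runS (fIs t13) pB [907, 2354, 5161, 7815, 9138, 10434, 10891, 9374, 7879, 6530, 4719, 3635, 3044, 2525, 1722, 1599, 1198, 1139, 951] 14 s13 = true) :=
  ⟨by decide +kernel⟩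

theorem c13 : cleanB 14 s13 = true := by decide +kernel

def u14 : PLift (runS (fIs t14) pB [981, 2527, 5576, 7791, 8995, 10341, 11560, 10395, 8758, 7330, 5325, 3973, 3048, 2358, 1814, 1448, 865, 728, 543] 14 s14 = true) :=
  ⟨by decide +kernel⟩

theorem c14 : cleanB 14 s14 = true := by decide +kernel

end Pool.Agent.SQF4.Ker
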