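import Pool.Agent.SQF4.Ker.D3

/-!
CERTIFICATES, part 20: the runs from s to t.
-/

set_option autoImplicit false
set_option maxRecDepth 1000000

namespace Pool.Agent.SQF4.Ker

open Pool.Agent.SQF4.Eng

def u96 : PLift (runS (fIs t96) pB [854, 2001, 5012, 8079, 9331, 11371, 12156, 10806, 8639, 7418, 5443, 3704, 2702, 2015, 1402, 1157, 975, 839, 715] 14 s96 = true) :=
  ⟨by decide +kernel⟩

theorem c96 : cleanB 14 s96 = true := by decide +kernel

def u97 : PLift (runS (fIs t97) pB [1847, 4579, 9092, 11208, 11069, 11928, 12311, 10233, 7501, 5332, 3783, 2396, 1321, 698, 357, 261, 164, 125, 111] 14 s97 = true) :=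
  ⟨by decide +kernel⟩

theorem c97 : cleanB 14 s97 = true := by decide +kernel

def u98 : PLift (runS (fIs t98) pB [1354, 3530, 7322, 9474, 10248, 11293, 12394, 11135, 8784, 6999, 4555, 2850, 1819, 1224, 592, 422, 240, 170, 103] 14 s98 = true) :=
  ⟨by decide +kernel⟩

theorem c98 : cleanB 14 s98 = true := by decide +kernel

def u99 : PLift (runS (fIs t99) pB [738, 2094, 4403, 8234, 10943, 12344, 12692, 10530, 8408, 6854, 5353, 3596, 2379, 1668, 892, 917, 635, 328, 199] 14 s99 = true) :=
  ⟨by decide +kernel⟩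

theorem c99 : cleanB 14 s99 = true := by decide +kernel

def u100 : PLift (runS (fIs t100) pB [1277, 3733, 6290, 9635, 11956, 12532, 11853, 10110, 7879, 6209, 4806, 3020, 1882, 1163, 572, 606, 372, 235, 138] 14 s100 = true) :=
  ⟨by decide +kernel⟩

theorem c100 : cleanB 14 s100 = true := by decide +kernel

end Pool.Agent.SQF4.Ker
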