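import Pool.Agent.SQF4.Ker.D3

/-!
CERTIFICATES, part 21: the runs from s to t.
-/

set_option autoImplicit false
set_option maxRecDepth 1000000

namespace Pool.Agent.SQF4.Ker

open Pool.Agent.SQF4.Eng

def u101 : PLift (runS (fIs t101) pB [779, 2225, 4246, 7538, 9692, 10870, 11588, 10068, 8555, 6774, 6165, 4438, 3238, 2309, 1524, 1671, 986, 544, 383] 14 s101 = true) :=
  ⟨by decide +kernel⟩

theorem c101 : cleanB 14 s101 = true := by decide +kernel

def u102 : PLift (runS (fIs t102) pB [565, 1466, 3366, 5186, 6255, 7497, 8280, 7682, 6270, 4926, 4750, 3443, 2636, 1984, 1750, 2003, 1314, 1077, 764] 14 s102 = true) :=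
  ⟨by decide +kernel⟩

theorem c102 : cleanB 14 s102 = true := by decide +kernel

def u103 : PLift (runS (fIs t103) pB [500, 1306, 3157, 5036, 5885, 6962, 7734, 7290, 6553, 6593, 7305, 6601, 5815, 5133, 4850, 5512, 3740, 2833, 1965] 14 s103 = true) :=
  ⟨by decide +kernel⟩

theorem c103 : cleanB 14 s103 = true := by decide +kernel

def u104 : PLift (runS (fIs t104) pB [1624, 4183, 8673, 11228, 11281, 12189, 12226, 9793, 7339, 4850, 3761, 2317, 1321, 699, 362, 262, 100, 44, 20] 14 s104 = true) :=
  ⟨by decide +kernel⟩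

theorem c104 : cleanB 14 s104 = true := by decide +kernel

def u105 : PLift (runS (fIs t105) pB [1403, 3655, 7603, 9752, 9918, 11260, 11961, 10028, 7712, 6009, 4257, 2893, 1832, 1180, 764, 405, 254, 180, 109] 14 s105 = true) :=
  ⟨by decide +kernel⟩

theorem c105 : cleanB 14 s105 = true := by decide +kernel

end Pool.Agent.SQF4.Ker
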