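import Pool.Agent.SQF4.Ker.D3

/-!
CERTIFICATES, part 22: the runs from s to t.
-/

set_option autoImplicit false
set_option maxRecDepth 1000000

namespace Pool.Agent.SQF4.Ker

open Pool.Agent.SQF4.Eng

def u106 : PLift (runS (fIs t106) pB [1349, 3122, 6538, 9518, 10334, 12748, 13583, 11045, 8068, 6411, 4547, 2947, 1658, 1079, 624, 411, 263, 152, 85] 14 s106 = true) :=
  ⟨by decide +kernel⟩

theorem c106 : cleanB 14 s106 = true := by decide +kernel

def u107 : PLift (runS (fIs t107) pB [650, 1636, 3890, 6915, 9073, 11185, 11571, 10179, 7950, 5701, 3671, 2381, 1615, 1095, 659, 559, 398, 348, 285] 14 s107 = true) :=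
  ⟨by decide +kernel⟩

theorem c107 : cleanB 14 s107 = true := by decide +kernel

def u108 : PLift (runS (fIs t108) pB [487, 1247, 2898, 5076, 6981, 8980, 9823, 9662, 9124, 9514, 6383, 5179, 4720, 3888, 3006, 2386, 1739, 1589, 1089] 14 s108 = true) :=
  ⟨by decide +kernel⟩

theorem c108 : cleanB 14 s108 = true := by decide +kernel

def u109 : PLift (runS (fIs t109) pB [490, 1294, 3159, 5492, 7423, 9096, 9912, 9241, 7667, 7088, 5681, 4733, 4392, 3925, 3211, 3569, 2911, 2929, 2500] 14 s109 = true) :=
  ⟨by decide +kernel⟩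

theorem c109 : cleanB 14 s109 = true := by decide +kernel

def u110 : PLift (runS (fIs t110) pB [684, 1674, 4051, 7014, 9422, 11619, 12884, 11918, 9575, 8071, 5026, 3519, 2525, 1797, 1119, 843, 616, 443, 344] 14 s110 = true) :=
  ⟨by decide +kernel⟩

theorem c110 : cleanB 14 s110 = true := by decide +kernel

end Pool.Agent.SQF4.Ker
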