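import Pool.Agent.SQF4.Ker.D3

/-!
CERTIFICATES, part 23: the runs from s to t.
-/

set_option autoImplicit false
set_option maxRecDepth 1000000

namespace Pool.Agent.SQF4.Ker

open Pool.Agent.SQF4.Eng

def u111 : PLift (runS (fIs t111) pB [876, 2078, 5035, 8465, 10327, 12186, 12780, 10788, 8060, 7135, 4964, 3373, 2513, 1890, 1391, 1049, 690, 613, 398] 14 s111 = true) :=
  ⟨by decide +kernel⟩

theorem c111 : cleanB 14 s111 = true := by decide +kernel

def u112 : PLift (runS (fIs t112) pB [1023, 2494, 5588, 8858, 10751, 12553, 13200, 11947, 8893, 7613, 3962, 2517, 1561, 895, 547, 299, 172, 134, 70] 14 s112 = true) :=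
  ⟨by decide +kernel⟩

theorem c112 : cleanB 14 s112 = true := by decide +kernel

def u113 : PLift (runS (fIs t113) pB [1155, 3018, 6535, 8908, 10194, 11534, 12004, 11179, 9615, 8834, 4323, 2780, 1835, 1091, 642, 415, 233, 160, 89] 14 s113 = true) :=
  ⟨by decide +kernel⟩

theorem c113 : cleanB 14 s113 = true := by decide +kernel

def u114 : PLift (runS (fIs t114) pB [847, 2243, 4903, 7713, 9913, 11944, 13111, 11835, 9593, 7283, 5176, 3433, 2239, 1499, 1049, 566, 381, 289, 190] 14 s114 = true) :=
  ⟨by decide +kernel⟩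

theorem c114 : cleanB 14 s114 = true := by decide +kernel

end Pool.Agent.SQF4.Ker
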