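import Pool.Agent.SQF4.Ker.D4

/-!
CERTIFICATES, part 24: the runs from s to t.
-/

set_option autoImplicit false
set_option maxRecDepth 1000000

namespace Pool.Agent.SQF4.Ker

open Pool.Agent.SQF4.Eng

def u115 : PLift (runS (fIs t115) pB [669, 1909, 4154, 7577, 10060, 11151, 11572, 9604, 7342, 5882, 5289, 3882, 2831, 2099, 1548, 1588, 1174, 796, 569] 14 s115 = true) :=
  ⟨by decide +kernel⟩

theorem c115 : cleanB 14 s115 = true := by decide +kernel

def u116 : PLift (runS (fIs t116) pB [1366, 3964, 7316, 11267, 12666, 12641, 12035, 8950, 6375, 4477, 4028, 2747, 1598, 1124, 856, 1104, 748, 519, 399] 14 s116 = true) :=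
  ⟨by decide +kernel⟩

theorem c116 : cleanB 14 s116 = true := by decide +kernel

def u117 : PLift (runS (fIs t117) pB [628, 1827, 4058, 7213, 9380, 11051, 11809, 10250, 8713, 7501, 6179, 4468, 2976, 1955, 1382, 1111, 670, 374, 257] 14 s117 = true) :=
  ⟨by decide +kernel⟩

theorem c117 : cleanB 14 s117 = true := by decide +kernel

def u118 : PLift (runS (fIs t118) pB [1637, 4227, 8516, 10266, 10124, 10080, 10722, 9785, 8368, 7205, 4315, 3023, 1976, 1325, 691, 633, 412, 274, 223] 14 s118 = true) :=
  ⟨by decide +kernel⟩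

theorem c118 : cleanB 14 s118 = true := by decide +kernel

def u119 : PLift (runS (fIs t119) pB [1266, 3293, 7380, 10197, 10604, 10498, 10771, 9241, 7569, 6351, 5126, 3298, 2311, 1709, 1044, 1459, 932, 827, 590] 14 s119 = true) :=
  ⟨by decide +kernel⟩

theorem c119 : cleanB 14 s119 = true := by decide +kernel

end Pool.Agent.SQF4.Ker
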