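import Pool.Agent.SQF4.Ker.D4

/-!
CERTIFICATES, part 25: the runs from s to t.
-/

set_option autoImplicit false
set_option maxRecDepth 1000000

namespace Pool.Agent.SQF4.Ker

open Pool.Agent.SQF4.Eng

def u120 : PLift (runS (fIs t120) pB [683, 1718, 3920, 5812, 6351, 6837, 7403, 7359, 6952, 7442, 6988, 5992, 5435, 5002, 3619, 3265, 2245, 2059, 1553] 14 s120 = true) :=
  ⟨by decide +kernel⟩

theorem c120 : cleanB 14 s120 = true := by decide +kernel

def u121 : PLift (runS (fIs t121) pB [1275, 3052, 6318, 9208, 9828, 10299, 10808, 10049, 8534, 7553, 5473, 3897, 2642, 1804, 1303, 938, 648, 461, 320] 14 s121 = true) :=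
  ⟨by decide +kernel⟩

theorem c121 : cleanB 14 s121 = true := by decide +kernel

def u122 : PLift (runS (fIs t122) pB [999, 2389, 5877, 9066, 9611, 10690, 11951, 10495, 8585, 7313, 5657, 3537, 2170, 1436, 970, 818, 424, 299, 190] 14 s122 = true) :=
  ⟨by decide +kernel⟩

theorem c122 : cleanB 14 s122 = true := by decide +kernel

def u123 : PLift (runS (fIs t123) pB [1995, 5156, 10128, 11947, 11099, 11006, 11454, 9701, 7489, 4684, 3504, 2256, 1412, 968, 564, 293, 149, 112, 56] 14 s123 = true) :=
  ⟨by decide +kernel⟩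

theorem c123 : cleanB 14 s123 = true := by decide +kernel

def u124 : PLift (runS (fIs t124) pB [826, 1953, 4493, 6648, 7195, 7956, 8513, 7798, 6793, 5600, 5620, 5495, 5446, 6009, 7718, 2529, 1730, 1400, 970] 14 s124 = true) :=
  ⟨by decide +kernel⟩

theorem c124 : cleanB 14 s124 = true := by decide +kernel

end Pool.Agent.SQF4.Ker
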