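import Pool.Agent.SQF4.Ker.D4

/-!
CERTIFICATES, part 26: the runs from s to t.
-/

set_option autoImplicit false
set_option maxRecDepth 1000000

namespace Pool.Agent.SQF4.Ker

open Pool.Agent.SQF4.Eng

def u125 : PLift (runS (fIs t125) pB [1500, 3564, 7789, 11040, 11312, 12015, 11484, 8821, 6612, 5017, 4170, 2640, 1626, 1026, 585, 386, 144, 95, 53] 14 s125 = true) :=
  ⟨by decide +kernel⟩

theorem c125 : cleanB 14 s125 = true := by decide +kernel

def u126 : PLift (runS (fIs t126) pB [1053, 2720, 6229, 9449, 10364, 11103, 11279, 9460, 7409, 5816, 5891, 4275, 2953, 1993, 1391, 1569, 818, 555, 261] 14 s126 = true) :=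
  ⟨by decide +kernel⟩

theorem c126 : cleanB 14 s126 = true := by decide +kernel

def u127 : PLift (runS (fIs t127) pB [1212, 3174, 7158, 9703, 10289, 11351, 11412, 9859, 8161, 6624, 4815, 3244, 2361, 1603, 796, 933, 647, 662, 483] 14 s127 = true) :=
  ⟨by decide +kernel⟩

theorem c127 : cleanB 14 s127 = true := by decide +kernel

def u128 : PLift (runS (fIs t128) pB [2185, 5340, 10400, 12166, 11933, 12192, 11297, 8904, 6629, 4480, 3207, 1740, 946, 592, 296, 268, 136, 127, 89] 14 s128 = true) :=
  ⟨by decide +kernel⟩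

theorem c128 : cleanB 14 s128 = true := by decide +kernel

end Pool.Agent.SQF4.Ker
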