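import Pool.Agent.SQF4.Ker.D4

/-!
CERTIFICATES, part 27: the runs from s to t.
-/

set_option autoImplicit false
set_option maxRecDepth 1000000

namespace Pool.Agent.SQF4.Ker

open Pool.Agent.SQF4.Eng

def u129 : PLift (runS (fIs t129) pB [3, 7, 19, 51, 133, 347, 902, 2136, 4330, 8739, 9449, 12972, 15938, 18043, 15181, 17387, 15095, 14249, 12364] 14 s129 = true) :=
  ⟨by decide +kernel⟩

theorem c129 : cleanB 14 s129 = true := by decide +kernel

def u130 : PLift (runS (fIs t130) pB [1002, 2362, 6047, 9588, 10616, 12009, 12245, 10170, 7975, 6849, 5351, 3463, 2393, 1562, 985, 768, 533, 349, 216] 14 s130 = true) :=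
  ⟨by decide +kernel⟩

theorem c130 : cleanB 14 s130 = true := by decide +kernel

def u131 : PLift (runS (fIs t131) pB [1186, 3062, 7000, 10651, 10944, 10622, 9356, 7178, 5313, 4375, 4862, 3862, 2930, 2245, 2001, 2525, 1771, 1377, 967] 14 s131 = true) :=
  ⟨by decide +kernel⟩

theorem c131 : cleanB 14 s131 = true := by decide +kernel

def u132 : PLift (runS (fIs t132) pB [881, 2428, 5113, 9056, 10519, 11990, 12599, 10412, 8136, 5928, 5478, 3943, 2500, 1633, 1156, 1189, 671, 650, 321] 14 s132 = true) :=
  ⟨by decide +kernel⟩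

theorem c132 : cleanB 14 s132 = true := by decide +kernel

end Pool.Agent.SQF4.Ker
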