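import Pool.Agent.SQF4.Ker.D4

/-!
CERTIFICATES, part 28: the runs from s to t.
-/

set_option autoImplicit false
set_option maxRecDepth 1000000

namespace Pool.Agent.SQF4.Ker

open Pool.Agent.SQF4.Eng

def u133 : PLift (runS (fIs t133) pB [888, 2572, 4867, 8728, 10480, 11263, 11622, 9435, 7424, 6130, 6060, 4384, 3022, 2262, 1503, 1812, 1108, 591, 363] 14 s133 = true) :=
  ⟨by decide +kernel⟩

theorem c133 : cleanB 14 s133 = true := by decide +kernel

def u134 : PLift (runS (fIs t134) pB [834, 2491, 4665, 8616, 10971, 12921, 13861, 10982, 8193, 6380, 4492, 2746, 1604, 981, 541, 398, 192, 98, 67] 14 s134 = true) :=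
  ⟨by decide +kernel⟩

theorem c134 : cleanB 14 s134 = true := by decide +kernel

def u135 : PLift (runS (fIs t135) pB [818, 2354, 4812, 8709, 10353, 11245, 11687, 10129, 8562, 6152, 5082, 3317, 2054, 1637, 1327, 1663, 1276, 959, 828] 14 s135 = true) :=
  ⟨by decide +kernel⟩

theorem c135 : cleanB 14 s135 = true := by decide +kernel

def u136 : PLift (runS (fIs t136) pB [646, 1697, 4064, 6457, 8472, 9970, 10904, 10420, 9122, 7489, 7101, 5428, 3972, 2910, 2125, 1823, 1008, 703, 367] 14 s136 = true) :=
  ⟨by decide +kernel⟩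

theorem c136 : cleanB 14 s136 = true := by decide +kernel

def u137 : PLift (runS (fIs t137) pB [1100, 2872, 6503, 9770, 11986, 12527, 12177, 10227, 7814, 5582, 4948, 3210, 1935, 1245, 1093, 779, 406, 253, 186] 14 s137 = true) :=
  ⟨by decide +kernel⟩

theorem c137 : cleanB 14 s137 = true := by decide +kernel

end Pool.Agent.SQF4.Ker
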