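import Pool.Agent.SQF4.Ker.D5

/-!
CERTIFICATES, part 29: the runs from s to t.
-/

set_option autoImplicit false
set_option maxRecDepth 1000000

namespace Pool.Agent.SQF4.Ker

open Pool.Agent.SQF4.Eng

def u138 : PLift (runS (fIs t138) pB [1239, 3255, 6597, 8175, 9349, 10398, 11130, 9757, 7771, 7164, 5372, 3984, 3087, 2321, 1209, 1238, 876, 664, 559] 14 s138 = true) :=
  ⟨by decide +kernel⟩

theorem c138 : cleanB 14 s138 = true := by decide +kernel

def u139 : PLift (runS (fIs t139) pB [1736, 4276, 9331, 11647, 11959, 12735, 12751, 9980, 6552, 4583, 3652, 2155, 1019, 578, 318, 288, 158, 56, 28] 14 s139 = true) :=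
  ⟨by decide +kernel⟩

theorem c139 : cleanB 14 s139 = true := by decide +kernel

def u140 : PLift (runS (fIs t140) pB [1044, 2363, 4680, 5873, 6154, 7182, 7419, 6507, 5907, 4774, 5804, 6094, 6050, 5968, 5466, 3547, 3084, 3020, 2869] 14 s140 = true) :=
  ⟨by decide +kernel⟩

theorem c140 : cleanB 14 s140 = true := by decide +kernel

def u141 : PLift (runS (fIs t141) pB [407, 1076, 2661, 4887, 7295, 9128, 10483, 10034, 8889, 6573, 6308, 5216, 4560, 4023, 4178, 3004, 2100, 1937, 1848] 14 s141 = true) :=
  ⟨by decide +kernel⟩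

theorem c141 : cleanB 14 s141 = true := by decide +kernel

def u142 : PLift (runS (fIs t142) pB [1096, 2814, 6268, 9201, 10599, 11367, 11840, 10171, 7534, 5848, 5277, 3541, 2112, 1497, 1302, 1213, 976, 927, 829] 14 s142 = true) :=
  ⟨by decide +kernel⟩

theorem c142 : cleanB 14 s142 = true := by decide +kernel

end Pool.Agent.SQF4.Ker
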