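import Pool.Agent.SQF4.Ker.D0

/-!
CERTIFICATES, part 3: the runs from s to t.
-/

set_option autoImplicit false
set_option maxRecDepth 1000000

namespace Pool.Agent.SQF4.Ker

open Pool.Agent.SQF4.Eng

def u15 : PLift (runS (fIs t15) pB [1594, 4202, 8420, 10175, 10995, 11807, 12541, 9975, 7112, 5752, 3968, 2451, 1738, 1182, 744, 725, 465, 314, 228] 14 s15 = true) :=
  ⟨by decide +kernel⟩

theorem c15 : cleanB 14 s15 = true := by decide +kernel

def u16 : PLift (runS (fIs t16) pB [416, 1129, 2724, 5123, 7507, 9783, 11566, 10962, 9570, 7711, 6259, 4899, 4053, 3407, 3244, 2281, 1648, 1138, 864] 14 s16 = true) :=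
  ⟨by decide +kernel⟩

theorem c16 : cleanB 14 s16 = true := by decide +kernel

def u17 : PLift (runS (fIs t17) pB [431, 1288, 2880, 5287, 8167, 10337, 11717, 10723, 9433, 8377, 6720, 4964, 3748, 3148, 2742, 1378, 962, 697, 531] 14 s17 = true) :=
  ⟨by decide +kernel⟩

theorem c17 : cleanB 14 s17 = true := by decide +kernel

def u18 : PLift (runS (fIs t18) pB [917, 2727, 5171, 8013, 10406, 11793, 12534, 10221, 8409, 6693, 5219, 3716, 2410, 1769, 1366, 1288, 849, 558, 430] 14 s18 = true) :=
  ⟨by decide +kernel⟩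

theorem c18 : cleanB 14 s18 = true := by decide +kernel

def u19 : PLift (runS (fIs t19) pB [714, 2039, 4006, 6569, 8733, 10335, 11884, 11011, 9901, 8639, 5799, 4150, 2832, 2134, 1590, 1592, 1044, 772, 655] 14 s19 = true) :=
  ⟨by decide +kernel⟩

theorem c19 : cleanB 14 s19 = true := by decide +kernel

end Pool.Agent.SQF4.Ker
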