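import Pool.Agent.SQF4.Ker.D5

/-!
CERTIFICATES, part 30: the runs from s to t.
-/

set_option autoImplicit false
set_option maxRecDepth 1000000

namespace Pool.Agent.SQF4.Ker

open Pool.Agent.SQF4.Eng

def u143 : PLift (runS (fIs t143) pB [1058, 2798, 6032, 8423, 10007, 11657, 12609, 11304, 9232, 8104, 4673, 2980, 1957, 1298, 668, 480, 297, 230, 134] 14 s143 = true) :=
  ⟨by decide +kernel⟩

theorem c143 : cleanB 14 s143 = true := by decide +kernel

def u144 : PLift (runS (fIs t144) pB [1804, 4577, 9447, 11370, 11404, 12276, 12347, 9708, 6707, 4689, 4062, 2458, 1231, 626, 348, 289, 103, 69, 52] 14 s144 = true) :=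
  ⟨by decide +kernel⟩

theorem c144 : cleanB 14 s144 = true := by decide +kernel

def u145 : PLift (runS (fIs t145) pB [1574, 3759, 7723, 11132, 12866, 13576, 13061, 10096, 7077, 4841, 3722, 2173, 1073, 556, 291, 202, 98, 44, 20] 14 s145 = true) :=
  ⟨by decide +kernel⟩

theorem c145 : cleanB 14 s145 = true := by decide +kernel

def u146 : PLift (runS (fIs t146) pB [1235, 3510, 5939, 9750, 12621, 12472, 12017, 9695, 7179, 5511, 4884, 3248, 2169, 1532, 805, 817, 487, 255, 152] 14 s146 = true) :=
  ⟨by decide +kernel⟩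

theorem c146 : cleanB 14 s146 = true := by decide +kernel

def u147 : PLift (runS (fIs t147) pB [898, 2630, 4774, 7812, 10745, 11439, 11937, 10458, 8319, 6618, 5315, 3550, 2408, 1831, 1201, 1632, 1098, 910, 904] 14 s147 = true) :=
  ⟨by decide +kernel⟩

theorem c147 : cleanB 14 s147 = true := by decide +kernel

end Pool.Agent.SQF4.Ker
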