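import Pool.Agent.SQF4.Ker.D5

/-!
CERTIFICATES, part 32: the runs from s to t.
-/

set_option autoImplicit false
set_option maxRecDepth 1000000

namespace Pool.Agent.SQF4.Ker

open Pool.Agent.SQF4.Eng

def u153 : PLift (runS (fIs t153) pB [1655, 3855, 8001, 10919, 11432, 12109, 11992, 10131, 7603, 5397, 3886, 2360, 1665, 1068, 715, 502, 300, 226, 159] 14 s153 = true) :=
  ⟨by decide +kernel⟩

theorem c153 : cleanB 14 s153 = true := by decide +kernel

def u154 : PLift (runS (fIs t154) pB [2073, 5384, 10661, 11937, 11849, 11525, 10873, 8613, 6151, 4608, 3811, 2337, 1492, 1024, 560, 461, 276, 221, 168] 14 s154 = true) :=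
  ⟨by decide +kernel⟩

theorem c154 : cleanB 14 s154 = true := by decide +kernel

def u155 : PLift (runS (fIs t155) pB [549, 1456, 3560, 6403, 9052, 10628, 11484, 10351, 8659, 8024, 6042, 4451, 3565, 2864, 2262, 2066, 1367, 1139, 777] 14 s155 = true) :=
  ⟨by decide +kernel⟩

theorem c155 : cleanB 14 s155 = true := by decide +kernel

def u156 : PLift (runS (fIs t156) pB [1042, 2654, 6076, 9309, 11125, 11800, 11661, 10102, 8379, 7148, 5459, 3446, 2325, 1396, 902, 729, 399, 334, 231] 14 s156 = true) :=
  ⟨by decide +kernel⟩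

theorem c156 : cleanB 14 s156 = true := by decide +kernel

def u157 : PLift (runS (fIs t157) pB [1704, 3977, 8658, 11848, 12824, 13258, 12156, 9501, 6579, 4511, 3678, 2192, 1310, 782, 396, 375, 233, 155, 109] 14 s157 = true) :=
  ⟨by decide +kernel⟩

theorem c157 : cleanB 14 s157 = true := by decide +kernel

end Pool.Agent.SQF4.Ker
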