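import Pool.Agent.SQF4.Ker.D5

/-!
CERTIFICATES, part 33: the runs from s to t.
-/

set_option autoImplicit false
set_option maxRecDepth 1000000

namespace Pool.Agent.SQF4.Ker

open Pool.Agent.SQF4.Eng

def u158 : PLift (runS (fIs t158) pB [1304, 3699, 7250, 11435, 14320, 14176, 13601, 10312, 6839, 4388, 3412, 1849, 848, 375, 134, 175, 68, 35, 28] 14 s158 = true) :=
  ⟨by decide +kernel⟩

theorem c158 : cleanB 14 s158 = true := by decide +kernel

def u159 : PLift (runS (fIs t159) pB [1088, 3121, 5918, 9737, 12379, 13665, 13822, 10587, 7489, 5578, 4520, 2761, 1393, 840, 496, 527, 264, 120, 85] 14 s159 = true) :=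
  ⟨by decide +kernel⟩

theorem c159 : cleanB 14 s159 = true := by decide +kernel

def u160 : PLift (runS (fIs t160) pB [728, 2110, 4560, 8015, 10461, 11762, 11817, 9154, 6847, 5449, 5817, 4064, 2578, 2004, 1610, 2722, 2093, 1566, 1238] 14 s160 = true) :=
  ⟨by decide +kernel⟩

theorem c160 : cleanB 14 s160 = true := by decide +kernel

def u161 : PLift (runS (fIs t161) pB [897, 2377, 5635, 8044, 9705, 10333, 11223, 9826, 8040, 5608, 5664, 4284, 3052, 2209, 1834, 1780, 1355, 1077, 895] 14 s161 = true) :=
  ⟨by decide +kernel⟩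

theorem c161 : cleanB 14 s161 = true := by decide +kernel

def u162 : PLift (runS (fIs t162) pB [1607, 4137, 8132, 10220, 10769, 10954, 11502, 9332, 7107, 6016, 4189, 2787, 1921, 1342, 790, 717, 330, 239, 193] 14 s162 = true) :=
  ⟨by decide +kernel⟩

theorem c162 : cleanB 14 s162 = true := by decide +kernel

end Pool.Agent.SQF4.Ker
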