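import Pool.Agent.SQF4.Ker.D5

/-!
CERTIFICATES, part 34: the runs from s to t.
-/

set_option autoImplicit false
set_option maxRecDepth 1000000

namespace Pool.Agent.SQF4.Ker

open Pool.Agent.SQF4.Eng

def u163 : PLift (runS (fIs t163) pB [840, 2196, 5197, 7816, 8873, 9476, 9522, 8031, 6622, 6121, 5938, 4556, 3677, 3128, 2459, 2881, 2303, 2049, 1641] 14 s163 = true) :=
  ⟨by decide +kernel⟩

theorem c163 : cleanB 14 s163 = true := by decide +kernel

def u164 : PLift (runS (fIs t164) pB [1185, 2880, 6798, 9914, 11499, 12026, 12264, 10133, 7758, 6488, 5228, 3191, 1730, 1011, 676, 715, 532, 321, 195] 14 s164 = true) :=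
  ⟨by decide +kernel⟩

theorem c164 : cleanB 14 s164 = true := by decide +kernel

def u165 : PLift (runS (fIs t165) pB [1392, 3272, 7017, 9380, 10623, 11687, 12548, 10941, 8702, 7007, 4521, 2703, 1709, 1018, 620, 548, 322, 212, 148] 14 s165 = true) :=
  ⟨by decide +kernel⟩

theorem c165 : cleanB 14 s165 = true := by decide +kernel

def u166 : PLift (runS (fIs t166) pB [839, 2222, 5355, 8172, 10417, 12068, 13094, 11377, 8855, 7525, 5102, 3310, 2183, 1394, 1079, 630, 352, 209, 141] 14 s166 = true) :=
  ⟨by decide +kernel⟩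

theorem c166 : cleanB 14 s166 = true := by decide +kernel

def u167 : PLift (runS (fIs t167) pB [1453, 3756, 7780, 10478, 11598, 12215, 12243, 10133, 7408, 5752, 4041, 2326, 1416, 772, 507, 271, 117, 84, 47] 14 s167 = true) :=
  ⟨by decide +kernel⟩

theorem c167 : cleanB 14 s167 = true := by decide +kernel

end Pool.Agent.SQF4.Ker
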