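import Pool.Agent.SQF4.Ker.D5

/-!
CERTIFICATES, part 35: the runs from s to t.
-/

set_option autoImplicit false
set_option maxRecDepth 1000000

namespace Pool.Agent.SQF4.Ker

open Pool.Agent.SQF4.Eng

def u168 : PLift (runS (fIs t168) pB [1162, 3011, 6835, 10476, 11646, 12115, 11970, 10082, 7665, 6239, 5110, 3236, 1925, 1168, 700, 682, 307, 194, 81] 14 s168 = true) :=
  ⟨by decide +kernel⟩

theorem c168 : cleanB 14 s168 = true := by decide +kernel

def u169 : PLift (runS (fIs t169) pB [1444, 3365, 7422, 10549, 11324, 11674, 11553, 9787, 7512, 6180, 4985, 3117, 1936, 1153, 803, 677, 393, 297, 196] 14 s169 = true) :=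
  ⟨by decide +kernel⟩

theorem c169 : cleanB 14 s169 = true := by decide +kernel

def u170 : PLift (runS (fIs t170) pB [1306, 3474, 7428, 11150, 12541, 13125, 12757, 9755, 6827, 4773, 3875, 2300, 1244, 789, 554, 619, 299, 213, 139] 14 s170 = true) :=
  ⟨by decide +kernel⟩

theorem c170 : cleanB 14 s170 = true := by decide +kernel

def u171 : PLift (runS (fIs t171) pB [971, 2816, 5693, 9948, 12139, 12744, 12781, 9735, 7213, 5618, 5229, 3407, 1975, 1263, 704, 979, 601, 302, 178] 14 s171 = true) :=
  ⟨by decide +kernel⟩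

theorem c171 : cleanB 14 s171 = true := by decide +kernel

def u172 : PLift (runS (fIs t172) pB [1120, 3310, 6091, 10128, 12313, 12885, 12991, 9960, 7513, 5866, 4736, 3008, 1775, 1057, 596, 493, 263, 157, 84] 14 s172 = true) :=
  ⟨by decide +kernel⟩

theorem c172 : cleanB 14 s172 = true := by decide +kernel

end Pool.Agent.SQF4.Ker
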