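import Pool.Agent.SQF4.Ker.D5

/-!
CERTIFICATES, part 36: the runs from s to t.
-/

set_option autoImplicit false
set_option maxRecDepth 1000000

namespace Pool.Agent.SQF4.Ker

open Pool.Agent.SQF4.Eng

def u173 : PLift (runS (fIs t173) pB [234, 621, 1490, 2912, 3910, 4460, 4734, 3738, 2809, 2415, 2396, 1728, 1044, 703, 500, 745, 534, 305, 204] 14 s173 = true) :=
  ⟨by decide +kernel⟩

theorem c173 : cleanB 14 s173 = true := by decide +kernel

end Pool.Agent.SQF4.Ker
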