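import Pool.Agent.SQF4.Ker.D0

/-!
CERTIFICATES, part 4: the runs from s to t.
-/

set_option autoImplicit false
set_option maxRecDepth 1000000

namespace Pool.Agent.SQF4.Ker

open Pool.Agent.SQF4.Eng

def u20 : PLift (runS (fIs t20) pB [657, 1900, 4150, 7304, 10309, 12312, 13391, 11426, 9494, 7326, 5209, 3453, 2129, 1446, 973, 859, 608, 462, 376] 14 s20 = true) :=
  ⟨by decide +kernel⟩

theorem c20 : cleanB 14 s20 = true := by decide +kernel

def u21 : PLift (runS (fIs t21) pB [563, 1311, 3184, 5911, 8187, 10650, 12618, 11799, 10727, 10168, 6013, 4267, 3288, 2362, 1445, 980, 557, 402, 280] 14 s21 = true) :=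
  ⟨by decide +kernel⟩

theorem c21 : cleanB 14 s21 = true := by decide +kernel

def u22 : PLift (runS (fIs t22) pB [566, 1372, 3409, 5955, 7706, 10174, 11980, 10915, 9783, 9389, 6785, 5043, 3768, 2886, 1891, 1278, 761, 525, 369] 14 s22 = true) :=
  ⟨by decide +kernel⟩

theorem c22 : cleanB 14 s22 = true := by decide +kernel

def u23 : PLift (runS (fIs t23) pB [1041, 2537, 5270, 8491, 10158, 12350, 13306, 11478, 9130, 6849, 4395, 2808, 1969, 1338, 1058, 602, 348, 227, 131] 14 s23 = true) :=
  ⟨by decide +kernel⟩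

theorem c23 : cleanB 14 s23 = true := by decide +kernel

def u24 : PLift (runS (fIs t24) pB [1126, 2929, 6712, 9620, 10561, 11891, 12394, 10059, 7524, 5977, 5350, 3365, 2237, 1288, 1004, 1095, 607, 380, 166] 14 s24 = true) :=
  ⟨by decide +kernel⟩

theorem c24 : cleanB 14 s24 = true := by decide +kernel

end Pool.Agent.SQF4.Ker
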