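import Pool.Agent.SQF4.Ker.D0

/-!
CERTIFICATES, part 5: the runs from s to t.
-/

set_option autoImplicit false
set_option maxRecDepth 1000000

namespace Pool.Agent.SQF4.Ker

open Pool.Agent.SQF4.Eng

def u25 : PLift (runS (fIs t25) pB [1470, 3816, 7691, 9600, 10627, 12107, 13097, 10487, 7841, 6265, 3750, 2264, 1465, 966, 811, 741, 388, 306, 173] 14 s25 = true) :=
  ⟨by decide +kernel⟩

theorem c25 : cleanB 14 s25 = true := by decide +kernel

def u26 : PLift (runS (fIs t26) pB [1789, 4425, 8773, 10432, 11270, 12469, 12704, 9682, 6915, 4853, 3317, 2059, 1390, 926, 717, 586, 306, 196, 140] 14 s26 = true) :=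
  ⟨by decide +kernel⟩

theorem c26 : cleanB 14 s26 = true := by decide +kernel

def u27 : PLift (runS (fIs t27) pB [1338, 3245, 7364, 10808, 11855, 12656, 12433, 9494, 6928, 4930, 3263, 2012, 1283, 949, 573, 358, 176, 136, 56] 14 s27 = true) :=
  ⟨by decide +kernel⟩

theorem c27 : cleanB 14 s27 = true := by decide +kernel

def u28 : PLift (runS (fIs t28) pB [1839, 4800, 9406, 11184, 11348, 11796, 12165, 9805, 7525, 6350, 2991, 1790, 1225, 750, 398, 245, 138, 109, 70] 14 s28 = true) :=
  ⟨by decide +kernel⟩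

theorem c28 : cleanB 14 s28 = true := by decide +kernel

def u29 : PLift (runS (fIs t29) pB [755, 1957, 4486, 7278, 8687, 10271, 10877, 9554, 8143, 7318, 5728, 4515, 3797, 3292, 2879, 2017, 1278, 1070, 796] 14 s29 = true) :=
  ⟨by decide +kernel⟩

theorem c29 : cleanB 14 s29 = true := by decide +kernel

end Pool.Agent.SQF4.Ker
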