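import Pool.Agent.SQF4.Ker.D0

/-!
CERTIFICATES, part 6: the runs from s to t.
-/

set_option autoImplicit false
set_option maxRecDepth 1000000

namespace Pool.Agent.SQF4.Ker

open Pool.Agent.SQF4.Eng

def u30 : PLift (runS (fIs t30) pB [889, 2336, 5514, 9010, 10860, 12485, 13264, 10578, 7978, 6313, 4731, 2893, 1888, 1266, 1019, 1261, 847, 716, 545] 14 s30 = true) :=
  ⟨by decide +kernel⟩

theorem c30 : cleanB 14 s30 = true := by decide +kernel

def u31 : PLift (runS (fIs t31) pB [354, 1008, 2196, 4074, 6022, 7452, 9349, 9349, 8891, 8250, 6505, 5396, 4443, 3961, 3366, 4797, 3658, 3057, 2564] 14 s31 = true) :=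
  ⟨by decide +kernel⟩

theorem c31 : cleanB 14 s31 = true := by decide +kernel

def u32 : PLift (runS (fIs t32) pB [923, 2695, 5216, 8613, 11366, 12817, 13193, 10776, 9040, 6632, 4607, 3172, 2002, 1388, 1015, 481, 246, 145, 83] 14 s32 = true) :=
  ⟨by decide +kernel⟩

theorem c32 : cleanB 14 s32 = true := by decide +kernel

def u33 : PLift (runS (fIs t33) pB [328, 972, 1987, 3414, 5047, 5840, 6993, 6707, 6676, 6341, 6432, 6373, 6509, 6832, 7707, 5056, 3924, 3343, 3110] 14 s33 = true) :=
  ⟨by decide +kernel⟩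

theorem c33 : cleanB 14 s33 = true := by decide +kernel

end Pool.Agent.SQF4.Ker
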