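import Pool.Agent.SQF4.Ker.D1

/-!
CERTIFICATES, part 7: the runs from s to t.
-/

set_option autoImplicit false
set_option maxRecDepth 1000000

namespace Pool.Agent.SQF4.Ker

open Pool.Agent.SQF4.Eng

def u34 : PLift (runS (fIs t34) pB [611, 1742, 3643, 6573, 9336, 11371, 12576, 10698, 9072, 7986, 5776, 4319, 3067, 2231, 1627, 1463, 1040, 814, 738] 14 s34 = true) :=
  ⟨by decide +kernel⟩

theorem c34 : cleanB 14 s34 = true := by decide +kernel

def u35 : PLift (runS (fIs t35) pB [924, 2673, 5423, 9063, 12239, 13527, 13431, 10020, 7145, 5490, 4101, 2510, 1558, 1091, 708, 563, 321, 177, 97] 14 s35 = true) :=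
  ⟨by decide +kernel⟩

theorem c35 : cleanB 14 s35 = true := by decide +kernel

def u36 : PLift (runS (fIs t36) pB [1015, 2344, 5058, 8034, 9980, 11454, 12336, 10749, 9273, 7350, 5236, 3669, 2578, 1973, 1471, 930, 535, 416, 239] 14 s36 = true) :=
  ⟨by decide +kernel⟩

theorem c36 : cleanB 14 s36 = true := by decide +kernel

def u37 : PLift (runS (fIs t37) pB [1561, 3860, 7390, 9742, 9551, 9759, 9506, 6926, 5080, 3611, 2734, 1672, 1157, 905, 770, 428, 248, 161, 90] 14 s37 = true) :=
  ⟨by decide +kernel⟩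

theorem c37 : cleanB 14 s37 = true := by decide +kernel

def u38 : PLift (runS (fIs t38) pB [887, 2335, 4539, 5840, 6469, 7001, 8019, 7426, 7501, 9089, 6267, 5083, 4362, 3580, 2574, 2980, 3156, 3529, 3399] 14 s38 = true) :=
  ⟨by decide +kernel⟩

theorem c38 : cleanB 14 s38 = true := by decide +kernel

end Pool.Agent.SQF4.Ker
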