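import Pool.Agent.SQF4.Ker.D1

/-!
CERTIFICATES, part 8: the runs from s to t.
-/

set_option autoImplicit false
set_option maxRecDepth 1000000

namespace Pool.Agent.SQF4.Ker

open Pool.Agent.SQF4.Eng

def u39 : PLift (runS (fIs t39) pB [1498, 3925, 8619, 12588, 13505, 14084, 13468, 9204, 5921, 3977, 3170, 1798, 1135, 554, 331, 393, 156, 91, 54] 14 s39 = true) :=
  ⟨by decide +kernel⟩

theorem c39 : cleanB 14 s39 = true := by decide +kernel

def u40 : PLift (runS (fIs t40) pB [965, 2438, 5809, 9335, 10770, 12310, 12820, 10141, 7523, 5570, 4986, 3634, 2536, 1724, 1370, 1134, 673, 499, 327] 14 s40 = true) :=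
  ⟨by decide +kernel⟩

theorem c40 : cleanB 14 s40 = true := by decide +kernel

def u41 : PLift (runS (fIs t41) pB [1371, 3206, 6890, 10451, 11526, 12437, 12383, 9664, 7571, 6128, 4109, 2960, 1967, 1402, 899, 541, 330, 213, 184] 14 s41 = true) :=
  ⟨by decide +kernel⟩

theorem c41 : cleanB 14 s41 = true := by decide +kernel

def u42 : PLift (runS (fIs t42) pB [1470, 3788, 7690, 10476, 11494, 12788, 13528, 10857, 8178, 5927, 3409, 1976, 1161, 699, 391, 290, 114, 79, 41] 14 s42 = true) :=
  ⟨by decide +kernel⟩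

theorem c42 : cleanB 14 s42 = true := by decide +kernel

def u43 : PLift (runS (fIs t43) pB [1636, 4269, 8895, 11933, 12510, 13219, 12207, 9124, 6516, 4617, 3637, 2082, 1296, 727, 431, 515, 301, 323, 177] 14 s43 = true) :=
  ⟨by decide +kernel⟩

theorem c43 : cleanB 14 s43 = true := by decide +kernel

end Pool.Agent.SQF4.Ker
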