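import Pool.Agent.SQF4.Ker.D1

/-!
CERTIFICATES, part 9: the runs from s to t.
-/

set_option autoImplicit false
set_option maxRecDepth 1000000

namespace Pool.Agent.SQF4.Ker

open Pool.Agent.SQF4.Eng

def u44 : PLift (runS (fIs t44) pB [979, 2614, 6230, 10028, 11672, 12799, 12737, 10355, 7933, 5693, 4413, 2896, 1895, 1266, 887, 1057, 495, 324, 173] 14 s44 = true) :=
  ⟨by decide +kernel⟩

theorem c44 : cleanB 14 s44 = true := by decide +kernel

def u45 : PLift (runS (fIs t45) pB [464, 1379, 2929, 5145, 7771, 9352, 10461, 9948, 8984, 9522, 6719, 5091, 3881, 3008, 1733, 1748, 1161, 853, 620] 14 s45 = true) :=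
  ⟨by decide +kernel⟩

theorem c45 : cleanB 14 s45 = true := by decide +kernel

def u46 : PLift (runS (fIs t46) pB [195, 501, 1201, 2501, 4199, 5972, 7906, 8308, 8756, 9942, 7512, 6569, 5944, 5529, 5190, 4415, 3671, 3339, 2874] 14 s46 = true) :=
  ⟨by decide +kernel⟩

theorem c46 : cleanB 14 s46 = true := by decide +kernel

def u47 : PLift (runS (fIs t47) pB [582, 1717, 3254, 5497, 7800, 9215, 10576, 9521, 8054, 7757, 6018, 4922, 4052, 3380, 2584, 3043, 2441, 2188, 1955] 14 s47 = true) :=
  ⟨by decide +kernel⟩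

theorem c47 : cleanB 14 s47 = true := by decide +kernel

def u48 : PLift (runS (fIs t48) pB [702, 2089, 4414, 7782, 10848, 12668, 13450, 11508, 9102, 7498, 4573, 2994, 2183, 1575, 878, 750, 621, 531, 460] 14 s48 = true) :=
  ⟨by decide +kernel⟩

theorem c48 : cleanB 14 s48 = true := by decide +kernel

end Pool.Agent.SQF4.Ker
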