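import Pool.Agent.SQF4.Ker.D1
import Pool.Agent.SQF4.Ker.E

/-!
CERTIFICATE of the stage 0 (window lengths 33 to 37), part 1.
-/

set_option autoImplicit false
set_option maxRecDepth 1000000

namespace Pool.Agent.SQF4.Ker

open Pool.Agent.SQF4.Eng

def v0x1 : PLift (catAll 33 (fun t => runS (fIs r0x1) q0 [16883, 11349, 7671, 5879, 4651] 33 t) g0x1 0 0 0 = true) :=
  ⟨by decide +kernel⟩

end Pool.Agent.SQF4.Ker
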