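import Pool.Agent.SQF4.Ker.E

/-!
CERTIFICATE of the stage 1 (window lengths 38 to 42), part 0.
-/

set_option autoImplicit false
set_option maxRecDepth 1000000

namespace Pool.Agent.SQF4.Ker

open Pool.Agent.SQF4.Eng

def v1x0 : PLift (catAll 38 (fun t => runS (fIs r1x0) q1 [14826, 19555, 10582, 9029, 7417] 38 t) g1x0 0 0 0 = true) :=
  ⟨by decide +kernel⟩

end Pool.Agent.SQF4.Ker
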