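import Pool.Agent.SQF4.Ker.E

/-!
CERTIFICATE of the stage 2 (window lengths 43 to 47), part 0.
-/

set_option autoImplicit false
set_option maxRecDepth 1000000

namespace Pool.Agent.SQF4.Ker

open Pool.Agent.SQF4.Eng

def v2x0 : PLift (catAll 43 (fun t => runS (fIs r2x0) q2 [10111, 7008, 4995, 3699, 3057] 43 t) g2x0 0 0 0 = true) :=
  ⟨by decide +kernel⟩

end Pool.Agent.SQF4.Ker
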