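import Pool.Agent.SQF4.Ker.E

/-!
CERTIFICATE of the stage 3 (window lengths 48 to 53), part 0.
-/

set_option autoImplicit false
set_option maxRecDepth 1000000

namespace Pool.Agent.SQF4.Ker

open Pool.Agent.SQF4.Eng

def v3x0 : PLift (catAll 48 (fun t => runS (fIs r3x0) q3 [2456, 2126, 2124, 2194, 2241, 2050] 48 t) g3x0 0 0 0 = true) :=
  ⟨by decide +kernel⟩

end Pool.Agent.SQF4.Ker
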