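import Pool.Agent.SQF4.Ker.E

/-!
CERTIFICATE of the stage 4 (window lengths 54 to 59), part 0.
-/

set_option autoImplicit false
set_option maxRecDepth 1000000

namespace Pool.Agent.SQF4.Ker

open Pool.Agent.SQF4.Eng

def v4x0 : PLift (catAll 54 (fun t => runS (fIs r4x0) q4 [2155, 2030, 1964, 1711, 1733, 1542] 54 t) g4x0 0 0 0 = true) :=
  ⟨by decide +kernel⟩

end Pool.Agent.SQF4.Ker
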