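import Pool.Agent.SQF4.Ker.E

/-!
CERTIFICATE of the stage 6 (window lengths 67 to 75), part 0.
-/

set_option autoImplicit false
set_option maxRecDepth 1000000

namespace Pool.Agent.SQF4.Ker

open Pool.Agent.SQF4.Eng

def v6x0 : PLift (catAll 67 (fun t => runS (fIs r6x0) q6 [548, 524, 415, 322, 275, 242, 189, 143, 123] 67 t) g6x0 0 0 0 = true) :=
  ⟨by decide +kernel⟩

end Pool.Agent.SQF4.Ker
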