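import Pool.Agent.SQF4.Ker.E

/-!
CERTIFICATE of the stage 7 (window lengths 76 to 85), part 0.
-/

set_option autoImplicit false
set_option maxRecDepth 1000000

namespace Pool.Agent.SQF4.Ker

open Pool.Agent.SQF4.Eng

def v7x0 : PLift (catAll 76 (fun t => runS fNone q7 [112, 89, 68, 65, 49, 39, 29, 13, 3, 0] 76 t) g7x0 0 0 0 = true) :=
  ⟨by decide +kernel⟩

end Pool.Agent.SQF4.Ker
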