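import Pool.Agent.SQF4.Seed
import Pool.Agent.SQF4.S14
import Pool.Agent.SQF4.Ker.T
import Pool.Agent.SQF4.Ker.U0
import Pool.Agent.SQF4.Ker.U1
import Pool.Agent.SQF4.Ker.U2
import Pool.Agent.SQF4.Ker.U3
import Pool.Agent.SQF4.Ker.U4
import Pool.Agent.SQF4.Ker.U5
import Pool.Agent.SQF4.Ker.U6
import Pool.Agent.SQF4.Ker.U7
import Pool.Agent.SQF4.Ker.U8
import Pool.Agent.SQF4.Ker.U9
import Pool.Agent.SQF4.Ker.U10
import Pool.Agent.SQF4.Ker.U11
import Pool.Agent.SQF4.Ker.U12
import Pool.Agent.SQF4.Ker.U13
import Pool.Agent.SQF4.Ker.U14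
import Pool.Agent.SQF4.Ker.U15
import Pool.Agent.SQF4.Ker.U16
import Pool.Agent.SQF4.Ker.U17
import Pool.Agent.SQF4.Ker.U18
import Pool.Agent.SQF4.Ker.U19
import Pool.Agent.SQF4.Ker.U20
import Pool.Agent.SQF4.Ker.U21
import Pool.Agent.SQF4.Ker.U22
import Pool.Agent.SQF4.Ker.U23
import Pool.Agent.SQF4.Ker.U24
import Pool.Agent.SQF4.Ker.U25
import Pool.Agent.SQF4.Ker.U26
import Pool.Agent.SQF4.Ker.U27
import Pool.Agent.SQF4.Ker.U28
import Pool.Agent.SQF4.Ker.U29
import Pool.Agent.SQF4.Ker.U30
import Pool.Agent.SQF4.Ker.U31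
import Pool.Agent.SQF4.Ker.U32
import Pool.Agent.SQF4.Ker.U33
import Pool.Agent.SQF4.Ker.U34
import Pool.Agent.SQF4.Ker.U35
import Pool.Agent.SQF4.Ker.U36
import Pool.Agent.SQF4.Ker.V0x0
import Pool.Agent.SQF4.Ker.V0x1
import Pool.Agent.SQF4.Ker.V0x2
import Pool.Agent.SQF4.Ker.V0x3
import Pool.Agent.SQF4.Ker.V0x4
import Pool.Agent.SQF4.Ker.V0x5
import Pool.Agent.SQF4.Ker.V1x0
import Pool.Agent.SQF4.Ker.V1x1
import Pool.Agent.SQF4.Ker.V2x0
import Pool.Agent.SQF4.Ker.V3x0
import Pool.Agent.SQF4.Ker.V4x0
import Pool.Agent.SQF4.Ker.V5x0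
import Pool.Agent.SQF4.Ker.V6x0
import Pool.Agent.SQF4.Ker.V7x0

/-!
ASSEMBLY: all rows of the seed state are good.
-/

set_option autoImplicit false
set_option maxRecDepth 1000000

namespace Pool.Agent.SQF4.Ker

open Pool.Agent.SQF4 Pool.Agent.SQF4.Eng

/-- a stage: the states of the list ss lead to the good state t -/
theorem mid_sound {S : ℕ → ℕ → Prop} {Bt : ℕ → ℕ → ℕ} {ps : List Par} {hs : List ℕ} {n A A' : ℕ} {ss : List Sta} {t : Sta}
    (hp : ParsOK S Bt n A ps A') (ht : AllS S Bt (n + ps.length) A' t)
    (h : catAll n (fun s => runS (fIs t) ps hs n s) ss 0 0 0 = true) : ∀ s ∈ ss, AllS S Bt n A s := by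
  refine (catAll_sound (S := S) (Bt := Bt) (A := A) _ ss 0 0 0 h
    (fun t h1 hc => runS_is hp hc ht h1) ?_ ?_).1
  · intro r hr
    omega
  · intro r hr
    omega

theorem seed_ok {S : ℕ → ℕ → Prop} {Bt : ℕ → ℕ → ℕ} (hA : ParsOK S Bt 4 4 pA 4) (hB : ParsOK S Bt 14 4 pB 6)
    (hQ0 : ParsOK S Bt 33 6 q0 7)
    (hQ1 : ParsOK S Bt 38 7 q1 8)
    (hQ2 : ParsOK S Bt 43 8 q2 8)
    (hQ3 : ParsOK S Bt 48 8 q3 8)
    (hQ4 : ParsOK S Bt 54 8 q4 8)
    (hQ5 : ParsOK S Bt 60 8 q5 8)
    (hQ6 : ParsOK S Bt 67 8 q6 8)
    (hQ7 : ParsOK S Bt 76 8 q7 8) :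
    AllS S Bt 4 4 seed := by
  have w7x0 := deep_sound hQ7 v7x0.down
  unfold g7x0 at w7x0
  simp only [List.forall_mem_cons] at w7x0
  obtain ⟨h6x0, -⟩ := w7x0
  have w6x0 := mid_sound hQ6 h6x0 v6x0.down
  unfold g6x0 at w6x0
  simp only [List.forall_mem_cons] at w6x0
  obtain ⟨h5x0, -⟩ := w6x0
  have w5x0 := mid_sound hQ5 h5x0 v5x0.down
  unfold g5x0 at w5x0
  simp only [List.forall_mem_cons] at w5x0
  obtain ⟨h4x0, -⟩ := w5x0
  have w4x0 := mid_sound hQ4 h4x0 v4x0.down
  unfold g4x0 at w4x0
  simp only [List.forall_mem_cons] at w4x0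
  obtain ⟨h3x0, -⟩ := w4x0
  have w3x0 := mid_sound hQ3 h3x0 v3x0.down
  unfold g3x0 at w3x0
  simp only [List.forall_mem_cons] at w3x0
  obtain ⟨h2x0, -⟩ := w3x0
  have w2x0 := mid_sound hQ2 h2x0 v2x0.down
  unfold g2x0 at w2x0
  simp only [List.forall_mem_cons] at w2x0
  obtain ⟨h1x0, h1x1, -⟩ := w2x0
  have w1x0 := mid_sound hQ1 h1x0 v1x0.down
  unfold g1x0 at w1x0
  simp only [List.forall_mem_cons] at w1x0
  obtain ⟨h0x0, h0x1, h0x2, -⟩ := w1x0
  have w1x1 := mid_sound hQ1 h1x1 v1x1.down
  unfold g1x1 at w1x1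
  simp only [List.forall_mem_cons] at w1x1
  obtain ⟨h0x3, h0x4, h0x5, -⟩ := w1x1
  have w0x0 := mid_sound hQ0 h0x0 v0x0.down
  unfold g0x0 at w0x0
  simp only [List.forall_mem_cons] at w0x0
  obtain ⟨h0, h1, h2, h3, h4, h5, h6, h7, h8, h9, h10, h11, h12, h13, h14, h15, h16, h17, h18, h19, h20, h21, h22, h23, h24, h25, h26, h27, h28, h29, h30, h31, h32, h33, -⟩ := w0x0
  have w0x1 := mid_sound hQ0 h0x1 v0x1.down
  unfold g0x1 at w0x1
  simp only [List.forall_mem_cons] at w0x1
  obtain ⟨h34, h35, h36, h37, h38, h39, h40, h41, h42, h43, h44, h45, h46, h47, h48, h49, h50, h51, h52, h53, h54, h55, h56, h57, h58, h59, h60, h61, h62, h63, h64, h65, h66, h67, -⟩ := w0x1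
  have w0x2 := mid_sound hQ0 h0x2 v0x2.down
  unfold g0x2 at w0x2
  simp only [List.forall_mem_cons] at w0x2
  obtain ⟨h68, h69, h70, h71, h72, h73, h74, h75, h76, h77, h78, h79, h80, h81, h82, h83, h84, h85, -⟩ := w0x2
  have w0x3 := mid_sound hQ0 h0x3 v0x3.down
  unfold g0x3 at w0x3
  simp only [List.forall_mem_cons] at w0x3
  obtain ⟨h86, h87, h88, h89, h90, h91, h92, h93, h94, h95, h96, h97, h98, h99, h100, h101, h102, h103, h104, h105, h106, h107, h108, h109, h110, h111, h112, h113, h114, -⟩ := w0x3
  have w0x4 := mid_sound hQ0 h0x4 v0x4.down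
  unfold g0x4 at w0x4
  simp only [List.forall_mem_cons] at w0x4
  obtain ⟨h115, h116, h117, h118, h119, h120, h121, h122, h123, h124, h125, h126, h127, h128, h129, h130, h131, h132, h133, h134, h135, h136, h137, -⟩ := w0x4
  have w0x5 := mid_sound hQ0 h0x5 v0x5.down
  unfold g0x5 at w0x5
  simp only [List.forall_mem_cons] at w0x5
  obtain ⟨h138, h139, h140, h141, h142, h143, h144, h145, h146, h147, h148, h149, h150, h151, h152, h153, h154, h155, h156, h157, h158, h159, h160, h161, h162, h163, h164, h165, h166, h167, h168, h169, h170, h171, h172, h173, -⟩ := w0x5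
  have key : ∀ t ∈ ss, AllS S Bt (4 + pA.length) 4 t := by
    unfold ss
    simp only [List.forall_mem_cons]
    exact ⟨runS_is hB (cleanB_sound c0) h0 u0.down,
      runS_is hB (cleanB_sound c1) h1 u1.down,
      runS_is hB (cleanB_sound c2) h2 u2.down,
      runS_is hB (cleanB_sound c3) h3 u3.down,
      runS_is hB (cleanB_sound c4) h4 u4.down,
      runS_is hB (cleanB_sound c5) h5 u5.down,
      runS_is hB (cleanB_sound c6) h6 u6.down,
      runS_is hB (cleanB_sound c7) h7 u7.down,
      runS_is hB (cleanB_sound c8) h8 u8.down,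
      runS_is hB (cleanB_sound c9) h9 u9.down,
      runS_is hB (cleanB_sound c10) h10 u10.down,
      runS_is hB (cleanB_sound c11) h11 u11.down,
      runS_is hB (cleanB_sound c12) h12 u12.down,
      runS_is hB (cleanB_sound c13) h13 u13.down,
      runS_is hB (cleanB_sound c14) h14 u14.down,
      runS_is hB (cleanB_sound c15) h15 u15.down,
      runS_is hB (cleanB_sound c16) h16 u16.down,
      runS_is hB (cleanB_sound c17) h17 u17.down,
      runS_is hB (cleanB_sound c18) h18 u18.down,
      runS_is hB (cleanB_sound c19) h19 u19.down,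
      runS_is hB (cleanB_sound c20) h20 u20.down,
      runS_is hB (cleanB_sound c21) h21 u21.down,
      runS_is hB (cleanB_sound c22) h22 u22.down,
      runS_is hB (cleanB_sound c23) h23 u23.down,
      runS_is hB (cleanB_sound c24) h24 u24.down,
      runS_is hB (cleanB_sound c25) h25 u25.down,
      runS_is hB (cleanB_sound c26) h26 u26.down,
      runS_is hB (cleanB_sound c27) h27 u27.down,
      runS_is hB (cleanB_sound c28) h28 u28.down,
      runS_is hB (cleanB_sound c29) h29 u29.down,
      runS_is hB (cleanB_sound c30) h30 u30.down,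
      runS_is hB (cleanB_sound c31) h31 u31.down,
      runS_is hB (cleanB_sound c32) h32 u32.down,
      runS_is hB (cleanB_sound c33) h33 u33.down,
      runS_is hB (cleanB_sound c34) h34 u34.down,
      runS_is hB (cleanB_sound c35) h35 u35.down,
      runS_is hB (cleanB_sound c36) h36 u36.down,
      runS_is hB (cleanB_sound c37) h37 u37.down,
      runS_is hB (cleanB_sound c38) h38 u38.down,
      runS_is hB (cleanB_sound c39) h39 u39.down,
      runS_is hB (cleanB_sound c40) h40 u40.down,
      runS_is hB (cleanB_sound c41) h41 u41.down,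
      runS_is hB (cleanB_sound c42) h42 u42.down,
      runS_is hB (cleanB_sound c43) h43 u43.down,
      runS_is hB (cleanB_sound c44) h44 u44.down,
      runS_is hB (cleanB_sound c45) h45 u45.down,
      runS_is hB (cleanB_sound c46) h46 u46.down,
      runS_is hB (cleanB_sound c47) h47 u47.down,
      runS_is hB (cleanB_sound c48) h48 u48.down,
      runS_is hB (cleanB_sound c49) h49 u49.down,
      runS_is hB (cleanB_sound c50) h50 u50.down,
      runS_is hB (cleanB_sound c51) h51 u51.down,
      runS_is hB (cleanB_sound c52) h52 u52.down,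
      runS_is hB (cleanB_sound c53) h53 u53.down,
      runS_is hB (cleanB_sound c54) h54 u54.down,
      runS_is hB (cleanB_sound c55) h55 u55.down,
      runS_is hB (cleanB_sound c56) h56 u56.down,
      runS_is hB (cleanB_sound c57) h57 u57.down,
      runS_is hB (cleanB_sound c58) h58 u58.down,
      runS_is hB (cleanB_sound c59) h59 u59.down,
      runS_is hB (cleanB_sound c60) h60 u60.down,
      runS_is hB (cleanB_sound c61) h61 u61.down,
      runS_is hB (cleanB_sound c62) h62 u62.down,
      runS_is hB (cleanB_sound c63) h63 u63.down,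
      runS_is hB (cleanB_sound c64) h64 u64.down,
      runS_is hB (cleanB_sound c65) h65 u65.down,
      runS_is hB (cleanB_sound c66) h66 u66.down,
      runS_is hB (cleanB_sound c67) h67 u67.down,
      runS_is hB (cleanB_sound c68) h68 u68.down,
      runS_is hB (cleanB_sound c69) h69 u69.down,
      runS_is hB (cleanB_sound c70) h70 u70.down,
      runS_is hB (cleanB_sound c71) h71 u71.down,
      runS_is hB (cleanB_sound c72) h72 u72.down,
      runS_is hB (cleanB_sound c73) h73 u73.down,
      runS_is hB (cleanB_sound c74) h74 u74.down,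
      runS_is hB (cleanB_sound c75) h75 u75.down,
      runS_is hB (cleanB_sound c76) h76 u76.down,
      runS_is hB (cleanB_sound c77) h77 u77.down,
      runS_is hB (cleanB_sound c78) h78 u78.down,
      runS_is hB (cleanB_sound c79) h79 u79.down,
      runS_is hB (cleanB_sound c80) h80 u80.down,
      runS_is hB (cleanB_sound c81) h81 u81.down,
      runS_is hB (cleanB_sound c82) h82 u82.down,
      runS_is hB (cleanB_sound c83) h83 u83.down,
      runS_is hB (cleanB_sound c84) h84 u84.down,
      runS_is hB (cleanB_sound c85) h85 u85.down,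
      runS_is hB (cleanB_sound c86) h86 u86.down,
      runS_is hB (cleanB_sound c87) h87 u87.down,
      runS_is hB (cleanB_sound c88) h88 u88.down,
      runS_is hB (cleanB_sound c89) h89 u89.down,
      runS_is hB (cleanB_sound c90) h90 u90.down,
      runS_is hB (cleanB_sound c91) h91 u91.down,
      runS_is hB (cleanB_sound c92) h92 u92.down,
      runS_is hB (cleanB_sound c93) h93 u93.down,
      runS_is hB (cleanB_sound c94) h94 u94.down,
      runS_is hB (cleanB_sound c95) h95 u95.down,
      runS_is hB (cleanB_sound c96) h96 u96.down,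
      runS_is hB (cleanB_sound c97) h97 u97.down,
      runS_is hB (cleanB_sound c98) h98 u98.down,
      runS_is hB (cleanB_sound c99) h99 u99.down,
      runS_is hB (cleanB_sound c100) h100 u100.down,
      runS_is hB (cleanB_sound c101) h101 u101.down,
      runS_is hB (cleanB_sound c102) h102 u102.down,
      runS_is hB (cleanB_sound c103) h103 u103.down,
      runS_is hB (cleanB_sound c104) h104 u104.down,
      runS_is hB (cleanB_sound c105) h105 u105.down,
      runS_is hB (cleanB_sound c106) h106 u106.down,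
      runS_is hB (cleanB_sound c107) h107 u107.down,
      runS_is hB (cleanB_sound c108) h108 u108.down,
      runS_is hB (cleanB_sound c109) h109 u109.down,
      runS_is hB (cleanB_sound c110) h110 u110.down,
      runS_is hB (cleanB_sound c111) h111 u111.down,
      runS_is hB (cleanB_sound c112) h112 u112.down,
      runS_is hB (cleanB_sound c113) h113 u113.down,
      runS_is hB (cleanB_sound c114) h114 u114.down,
      runS_is hB (cleanB_sound c115) h115 u115.down,
      runS_is hB (cleanB_sound c116) h116 u116.down,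
      runS_is hB (cleanB_sound c117) h117 u117.down,
      runS_is hB (cleanB_sound c118) h118 u118.down,
      runS_is hB (cleanB_sound c119) h119 u119.down,
      runS_is hB (cleanB_sound c120) h120 u120.down,
      runS_is hB (cleanB_sound c121) h121 u121.down,
      runS_is hB (cleanB_sound c122) h122 u122.down,
      runS_is hB (cleanB_sound c123) h123 u123.down,
      runS_is hB (cleanB_sound c124) h124 u124.down,
      runS_is hB (cleanB_sound c125) h125 u125.down,
      runS_is hB (cleanB_sound c126) h126 u126.down,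
      runS_is hB (cleanB_sound c127) h127 u127.down,
      runS_is hB (cleanB_sound c128) h128 u128.down,
      runS_is hB (cleanB_sound c129) h129 u129.down,
      runS_is hB (cleanB_sound c130) h130 u130.down,
      runS_is hB (cleanB_sound c131) h131 u131.down,
      runS_is hB (cleanB_sound c132) h132 u132.down,
      runS_is hB (cleanB_sound c133) h133 u133.down,
      runS_is hB (cleanB_sound c134) h134 u134.down,
      runS_is hB (cleanB_sound c135) h135 u135.down,
      runS_is hB (cleanB_sound c136) h136 u136.down,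
      runS_is hB (cleanB_sound c137) h137 u137.down,
      runS_is hB (cleanB_sound c138) h138 u138.down,
      runS_is hB (cleanB_sound c139) h139 u139.down,
      runS_is hB (cleanB_sound c140) h140 u140.down,
      runS_is hB (cleanB_sound c141) h141 u141.down,
      runS_is hB (cleanB_sound c142) h142 u142.down,
      runS_is hB (cleanB_sound c143) h143 u143.down,
      runS_is hB (cleanB_sound c144) h144 u144.down,
      runS_is hB (cleanB_sound c145) h145 u145.down,
      runS_is hB (cleanB_sound c146) h146 u146.down,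
      runS_is hB (cleanB_sound c147) h147 u147.down,
      runS_is hB (cleanB_sound c148) h148 u148.down,
      runS_is hB (cleanB_sound c149) h149 u149.down,
      runS_is hB (cleanB_sound c150) h150 u150.down,
      runS_is hB (cleanB_sound c151) h151 u151.down,
      runS_is hB (cleanB_sound c152) h152 u152.down,
      runS_is hB (cleanB_sound c153) h153 u153.down,
      runS_is hB (cleanB_sound c154) h154 u154.down,
      runS_is hB (cleanB_sound c155) h155 u155.down,
      runS_is hB (cleanB_sound c156) h156 u156.down,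
      runS_is hB (cleanB_sound c157) h157 u157.down,
      runS_is hB (cleanB_sound c158) h158 u158.down,
      runS_is hB (cleanB_sound c159) h159 u159.down,
      runS_is hB (cleanB_sound c160) h160 u160.down,
      runS_is hB (cleanB_sound c161) h161 u161.down,
      runS_is hB (cleanB_sound c162) h162 u162.down,
      runS_is hB (cleanB_sound c163) h163 u163.down,
      runS_is hB (cleanB_sound c164) h164 u164.down,
      runS_is hB (cleanB_sound c165) h165 u165.down,
      runS_is hB (cleanB_sound c166) h166 u166.down,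
      runS_is hB (cleanB_sound c167) h167 u167.down,
      runS_is hB (cleanB_sound c168) h168 u168.down,
      runS_is hB (cleanB_sound c169) h169 u169.down,
      runS_is hB (cleanB_sound c170) h170 u170.down,
      runS_is hB (cleanB_sound c171) h171 u171.down,
      runS_is hB (cleanB_sound c172) h172 u172.down,
      runS_is hB (cleanB_sound c173) h173 u173.down,
      fun t h => absurd h List.not_mem_nil⟩
  exact runS_cat hA seed_clean key top.down

end Pool.Agent.SQF4.Ker
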