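import Pool.Agent.SQF4.Ker.D2

/-!
CERTIFICATES, part 14: the runs from s to t.
-/

set_option autoImplicit false
set_option maxRecDepth 1000000

namespace Pool.Agent.SQF4.Ker

open Pool.Agent.SQF4.Eng

def u68 : PLift (runS (fIs t68) pB [241, 681, 1569, 3217, 5062, 6929, 8410, 8337, 8055, 9112, 8007, 7066, 6191, 5493, 3825, 3829, 3155, 2892, 2677] 14 s68 = true) :=
  ⟨by decide +kernel⟩

theorem c68 : cleanB 14 s68 = true := by decide +kernel

def u69 : PLift (runS (fIs t69) pB [328, 980, 2329, 4621, 6875, 9059, 10594, 10273, 9417, 9884, 7223, 5514, 4495, 3576, 3094, 2118, 1549, 1164, 930] 14 s69 = true) :=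
  ⟨by decide +kernel⟩

theorem c69 : cleanB 14 s69 = true := by decide +kernel

def u70 : PLift (runS (fIs t70) pB [657, 1945, 4094, 7146, 9604, 11920, 13145, 11185, 9381, 8607, 5715, 4007, 2665, 1701, 1135, 691, 399, 255, 175] 14 s70 = true) :=
  ⟨by decide +kernel⟩

theorem c70 : cleanB 14 s70 = true := by decide +kernel

def u71 : PLift (runS (fIs t71) pB [881, 2589, 4718, 7444, 8667, 9938, 9990, 8316, 6757, 6716, 5487, 4651, 3495, 2834, 2577, 3099, 2384, 2154, 1806] 14 s71 = true) :=
  ⟨by decide +kernel⟩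

theorem c71 : cleanB 14 s71 = true := by decide +kernel

def u72 : PLift (runS (fIs t72) pB [699, 1978, 4349, 7674, 9651, 10994, 11568, 10287, 8585, 8088, 6055, 4399, 3179, 2448, 1627, 1216, 864, 531, 382] 14 s72 = true) :=
  ⟨by decide +kernel⟩

theorem c72 : cleanB 14 s72 = true := by decide +kernel

end Pool.Agent.SQF4.Ker
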