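import Pool.Agent.SQF4.Ker.D5

/-!
CERTIFICATES, part 31: the runs from s to t.
-/

set_option autoImplicit false
set_option maxRecDepth 1000000

namespace Pool.Agent.SQF4.Ker

open Pool.Agent.SQF4.Eng

def u148 : PLift (runS (fIs t148) pB [796, 2215, 4474, 7786, 10291, 11000, 11448, 9955, 8185, 6189, 6611, 4605, 3045, 2108, 1365, 1894, 1323, 784, 546] 14 s148 = true) :=
  ⟨by decide +kernel⟩

theorem c148 : cleanB 14 s148 = true := by decide +kernel

def u149 : PLift (runS (fIs t149) pB [293, 773, 1901, 3051, 3969, 4800, 5598, 6375, 7201, 9693, 9990, 9950, 9727, 9992, 6221, 2230, 1318, 1013, 731] 14 s149 = true) :=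
  ⟨by decide +kernel⟩

theorem c149 : cleanB 14 s149 = true := by decide +kernel

def u150 : PLift (runS (fIs t150) pB [1190, 3082, 6962, 10172, 11643, 12286, 11725, 9461, 7054, 5635, 4927, 3112, 1829, 1135, 731, 725, 408, 303, 189] 14 s150 = true) :=
  ⟨by decide +kernel⟩

theorem c150 : cleanB 14 s150 = true := by decide +kernel

def u151 : PLift (runS (fIs t151) pB [714, 1891, 4315, 5570, 6608, 8041, 9331, 9454, 8550, 7099, 6884, 6011, 5375, 4933, 4029, 2232, 1519, 1152, 903] 14 s151 = true) :=
  ⟨by decide +kernel⟩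

theorem c151 : cleanB 14 s151 = true := by decide +kernel

def u152 : PLift (runS (fIs t152) pB [1842, 4678, 9300, 10494, 10779, 11644, 11679, 9814, 7472, 6015, 4423, 2728, 1507, 789, 427, 311, 149, 102, 43] 14 s152 = true) :=
  ⟨by decide +kernel⟩

theorem c152 : cleanB 14 s152 = true := by decide +kernel

end Pool.Agent.SQF4.Ker
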