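import Pool.Agent.SQF4.Ker.E

/-!
CERTIFICATE of the stage 5 (window lengths 60 to 66), part 0.
-/

set_option autoImplicit false
set_option maxRecDepth 1000000

namespace Pool.Agent.SQF4.Ker

open Pool.Agent.SQF4.Eng

def v5x0 : PLift (catAll 60 (fun t => runS (fIs r5x0) q5 [1382, 1218, 1130, 929, 884, 641, 672] 60 t) g5x0 0 0 0 = true) :=
  ⟨by decide +kernel⟩

end Pool.Agent.SQF4.Ker
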